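import Mathlib

set_option autoImplicit false

open Set

namespace Pool.Agent.X104.Seg

/-- Left endpoints of the level-`n` intervals of the triadic Cantor set. -/
noncomputable def D : ℕ → Set ℝ
  | 0 => {0}
  | n + 1 => (· / 3) '' D n ∪ (fun x => (2 + x) / 3) '' D n

lemma D_zero : D 0 = {0} := rfl
lemma D_succ (n : ℕ) : D (n + 1) = (· / 3) '' D n ∪ (fun x => (2 + x) / 3) '' D n := rfl

lemma zero_mem_D (n : ℕ) : (0 : ℝ) ∈ D n := by
  induction n with
  | zero => simp [D_zero]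
  | succ n ih => exact Or.inl ⟨0, ih, by simp⟩

lemma D_nonneg {n : ℕ} {s : ℝ} (hs : s ∈ D n) : 0 ≤ s := by
  induction n generalizing s with
  | zero => simp only [D_zero, mem_singleton_iff] at hs; rw [hs]
  | succ n ih =>
    rcases hs with ⟨t, ht, rfl⟩ | ⟨t, ht, rfl⟩
    · have := ih ht; positivity
    · have := ih ht; positivity

lemma D_le {n : ℕ} {s : ℝ} (hs : s ∈ D n) : s + (1 / 3 : ℝ) ^ n ≤ 1 := by
  induction n generalizing s with
  | zero => simp only [D_zero, mem_singleton_iff] at hs; simp [hs]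
  | succ n ih =>
    rcases hs with ⟨t, ht, rfl⟩ | ⟨t, ht, rfl⟩
    · have h1 := ih ht
      have h2 : (0 : ℝ) < (1 / 3) ^ n := by positivity
      simp only [pow_succ]
      linarith
    · have h1 := ih ht
      simp only [pow_succ]
      linarith

lemma D_le_one {n : ℕ} {s : ℝ} (hs : s ∈ D n) : s ≤ 1 := by
  have h1 := D_le hs
  have h2 : (0 : ℝ) < (1 / 3) ^ n := by positivity
  linarith

lemma D_sep {n : ℕ} {s t : ℝ} (hs : s ∈ D n) (ht : t ∈ D n) (hne : s ≠ t) :
    2 * (1 / 3 : ℝ) ^ n ≤ |s - t| := by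
  induction n generalizing s t with
  | zero =>
    simp only [D_zero, mem_singleton_iff] at hs ht
    exact absurd (hs.trans ht.symm) hne
  | succ n ih =>
    have key : ∀ u ∈ D n, ∀ v ∈ D n, 2 * (1 / 3 : ℝ) ^ (n + 1) ≤ |u / 3 - (2 + v) / 3| := by
      intro u hu v hv
      have h1 := D_le hu
      have h2 := D_nonneg hv
      have h3 : (1 / 3 : ℝ) ^ n ≤ 1 := pow_le_one₀ (by norm_num) (by norm_num)
      rw [abs_of_nonpos (by linarith [D_le_one hu]), pow_succ]
      linarith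
    rcases hs with ⟨u, hu, rfl⟩ | ⟨u, hu, rfl⟩ <;> rcases ht with ⟨v, hv, rfl⟩ | ⟨v, hv, rfl⟩
    · have huv : u ≠ v := by
        rintro rfl
        exact hne rfl
      have h1 := ih hu hv huv
      have h2 : u / 3 - v / 3 = (u - v) / 3 := by ring
      simp only [h2, abs_div, pow_succ]
      rw [abs_of_pos (by norm_num : (0 : ℝ) < 3)]
      linarith
    · exact key u hu v hv
    · have := key v hv u hu
      rwa [abs_sub_comm] at this
    · have huv : u ≠ v := by
        rintro rfl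
        exact hne rfl
      have h1 := ih hu hv huv
      have h2 : (2 + u) / 3 - (2 + v) / 3 = (u - v) / 3 := by ring
      simp only [h2, abs_div, pow_succ]
      rw [abs_of_pos (by norm_num : (0 : ℝ) < 3)]
      linarith

lemma third_mem {c : ℝ} (hc : c ∈ cantorSet) : c / 3 ∈ cantorSet := by
  rw [cantorSet_eq_union_halves]
  exact Or.inl ⟨c, hc, rfl⟩

lemma third_mem' {c : ℝ} (hc : c ∈ cantorSet) : (2 + c) / 3 ∈ cantorSet := by
  rw [cantorSet_eq_union_halves]
  exact Or.inr ⟨c, hc, rfl⟩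

lemma D_cantor {n : ℕ} {s c : ℝ} (hs : s ∈ D n) (hc : c ∈ cantorSet) :
    s + (1 / 3 : ℝ) ^ n * c ∈ cantorSet := by
  induction n generalizing s with
  | zero => simp only [D_zero, mem_singleton_iff] at hs; simpa [hs] using hc
  | succ n ih =>
    rcases hs with ⟨t, ht, rfl⟩ | ⟨t, ht, rfl⟩
    · have := third_mem (ih ht)
      have e : t / 3 + (1 / 3 : ℝ) ^ (n + 1) * c = (t + (1 / 3 : ℝ) ^ n * c) / 3 := by ring
      simpa only [e] using this
    · have := third_mem' (ih ht)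
      have e : (2 + t) / 3 + (1 / 3 : ℝ) ^ (n + 1) * c = (2 + (t + (1 / 3 : ℝ) ^ n * c)) / 3 := by
        ring
      simpa only [e] using this

lemma D_sub_cantor {n : ℕ} {s : ℝ} (hs : s ∈ D n) : s ∈ cantorSet := by
  simpa using D_cantor hs zero_mem_cantorSet

lemma D_add {n m : ℕ} {s t : ℝ} (hs : s ∈ D n) (ht : t ∈ D m) :
    s + (1 / 3 : ℝ) ^ n * t ∈ D (n + m) := by
  induction n generalizing s with
  | zero => simp only [D_zero, mem_singleton_iff] at hs; simpa [hs] using ht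
  | succ n ih =>
    have e : n + 1 + m = (n + m) + 1 := by omega
    rw [e, D_succ]
    rcases hs with ⟨u, hu, rfl⟩ | ⟨u, hu, rfl⟩
    · left
      refine ⟨u + (1 / 3 : ℝ) ^ n * t, ih hu, ?_⟩
      simp only
      ring
    · right
      refine ⟨u + (1 / 3 : ℝ) ^ n * t, ih hu, ?_⟩
      simp only
      ring

lemma D_scale (k : ℕ) {m : ℕ} {t : ℝ} (ht : t ∈ D m) : (1 / 3 : ℝ) ^ k * t ∈ D (k + m) := by
  simpa using D_add (zero_mem_D k) ht

lemma D_mono {n m : ℕ} (h : n ≤ m) : D n ⊆ D m := by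
  intro s hs
  obtain ⟨k, rfl⟩ := Nat.exists_eq_add_of_le h
  simpa using D_add hs (zero_mem_D k)

/-- `1 - 3^{-j}` has the expansion `0.22...2`. -/
lemma one_sub_mem_D (j : ℕ) : 1 - (1 / 3 : ℝ) ^ j ∈ D j := by
  induction j with
  | zero => simp [D_zero]
  | succ j ih =>
    right
    refine ⟨_, ih, ?_⟩
    simp only [pow_succ]
    ring

lemma one_sub_mem_D' {j M : ℕ} (h : j ≤ M) : 1 - (1 / 3 : ℝ) ^ j ∈ D M :=
  D_mono h (one_sub_mem_D j)

lemma two_ninths_mem : (2 / 9 : ℝ) ∈ D 2 := by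
  left
  refine ⟨2 / 3, Or.inr ⟨0, by simp [D_zero], by norm_num⟩, by norm_num⟩

end Pool.Agent.X104.Seg
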