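import Mathlib

set_option autoImplicit false

open Set MeasureTheory

namespace Pool.Agent.X104.Seg

/-- The periodic set with period `p`, origin `d` and pattern `A ⊆ [0,1)`. -/
def Per (p d : ℝ) (A : Set ℝ) : Set ℝ := {y | Int.fract ((y - d) / p) ∈ A}

lemma mem_Per {p d : ℝ} {A : Set ℝ} {y : ℝ} : y ∈ Per p d A ↔ Int.fract ((y - d) / p) ∈ A :=
  Iff.rfl

lemma measurableSet_Per (p d : ℝ) {A : Set ℝ} (hA : MeasurableSet A) :
    MeasurableSet (Per p d A) := by
  have h : Measurable fun y : ℝ => Int.fract ((y - d) / p) := by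
    have h1 : Measurable fun y : ℝ => (y - d) / p := by fun_prop
    exact h1.fract
  exact h hA

lemma vol_real_le_one {A : Set ℝ} (hA1 : A ⊆ Ico 0 1) : volume.real A ≤ 1 := by
  have h : volume.real A ≤ volume.real (Ico (0 : ℝ) 1) :=
    measureReal_mono hA1 (by simp)
  simpa using h

/-- equidistribution of a periodic pattern in an interval -/
lemma equi_interval {A : Set ℝ} (hA : MeasurableSet A) (hA1 : A ⊆ Ico 0 1) {p : ℝ} (hp : 0 < p)
    (d u v : ℝ) :
    |volume.real (Ico u v ∩ Per p d A) - volume.real A * max 0 (v - u)| ≤ p := by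
  rcases le_total v u with huv | huv
  · have h1 : Ico u v = ∅ := Ico_eq_empty (not_lt.mpr huv)
    rw [h1, max_eq_left (by linarith)]
    simp [hp.le]
  rw [max_eq_right (by linarith)]
  set f : ℝ → ℝ := (Per p d A).indicator fun _ => (1 : ℝ) with hf
  have hmP := measurableSet_Per p d hA
  have hper : Function.Periodic f p := by
    intro y
    have h1 : (y + p - d) / p = (y - d) / p + 1 := by field_simp; ring
    have h2 : (y + p ∈ Per p d A) ↔ (y ∈ Per p d A) := by
      rw [mem_Per, mem_Per, h1, Int.fract_add_one]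
    by_cases h3 : y ∈ Per p d A
    · simp [hf, h3, h2.mpr h3]
    · have h4 : y + p ∉ Per p d A := fun h => h3 (h2.mp h)
      simp [hf, h3, h4]
  have hfint : ∀ a b : ℝ, IntervalIntegrable f volume a b := by
    intro a b
    rw [intervalIntegrable_iff]
    refine Integrable.mono' (g := fun _ => (1 : ℝ)) ?_ ?_ ?_
    · exact intervalIntegrable_iff.mp intervalIntegrable_const
    · exact ((measurable_const.indicator hmP).aestronglyMeasurable)
    · refine Filter.Eventually.of_forall fun y => ?_
      simp only [hf, indicator]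
      split_ifs <;> simp
  have hf0 : ∀ y, 0 ≤ f y := fun y => by
    simp only [hf, indicator]; split_ifs <;> simp
  have hf1 : ∀ y, f y ≤ 1 := fun y => by
    simp only [hf, indicator]; split_ifs <;> simp
  -- the integral is the measure
  have hI : ∀ a b : ℝ, a ≤ b → ∫ y in a..b, f y = volume.real (Ico a b ∩ Per p d A) := by
    intro a b hab
    rw [intervalIntegral.integral_of_le hab, ← integral_Icc_eq_integral_Ioc,
      integral_Icc_eq_integral_Ico, hf, setIntegral_indicator hmP]
    simp
  -- one period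
  have hone : ∫ y in d..(d + p), f y = p * volume.real A := by
    have h1 : ∫ y in d..(d + p), f y
        = ∫ y in d..(d + p), (A.indicator (fun _ => (1 : ℝ))) (Int.fract (y / p - d / p)) := by
      refine intervalIntegral.integral_congr fun y _ => ?_
      have h2 : (y ∈ Per p d A) ↔ (Int.fract (y / p - d / p) ∈ A) := by
        rw [mem_Per, sub_div]
      by_cases h3 : y ∈ Per p d A
      · simp [hf, h3, h2.mp h3]
      · have h4 : Int.fract (y / p - d / p) ∉ A := fun h => h3 (h2.mpr h)
        simp [hf, h3, h4]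
    rw [h1]
    have h2 := intervalIntegral.integral_comp_div_sub
      (a := d) (b := d + p) (c := p)
      (fun z => (A.indicator (fun _ => (1 : ℝ))) (Int.fract z)) hp.ne' (d / p)
    rw [h2]
    have h3 : d / p - d / p = 0 := by ring
    have h4 : (d + p) / p - d / p = 1 := by field_simp; ring
    rw [h3, h4, intervalIntegral.integral_of_le (by norm_num : (0 : ℝ) ≤ 1),
      ← integral_Icc_eq_integral_Ioc, integral_Icc_eq_integral_Ico]
    have h5 : ∫ z in Ico (0 : ℝ) 1, (A.indicator (fun _ => (1 : ℝ))) (Int.fract z)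
        = ∫ z in Ico (0 : ℝ) 1, (A.indicator (fun _ => (1 : ℝ))) z := by
      refine setIntegral_congr_fun measurableSet_Ico fun z hz => ?_
      have : Int.fract z = z := Int.fract_eq_self.mpr ⟨hz.1, hz.2⟩
      simp only [this]
    rw [h5, setIntegral_indicator hA, inter_eq_right.mpr hA1]
    simp
  set n : ℤ := ⌊(v - u) / p⌋ with hn
  have hn1 : (n : ℝ) * p ≤ v - u := by
    have := Int.floor_le ((v - u) / p)
    rw [← hn] at this
    calc (n : ℝ) * p ≤ (v - u) / p * p := by gcongr
      _ = v - u := by field_simp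
  have hn2 : v - u < (n + 1 : ℝ) * p := by
    have := Int.lt_floor_add_one ((v - u) / p)
    rw [← hn] at this
    calc v - u = (v - u) / p * p := by field_simp
      _ < (n + 1 : ℝ) * p := by gcongr
  have hmain : ∫ y in u..(u + n • p), f y = n * (p * volume.real A) := by
    have h1 := hper.intervalIntegral_add_zsmul_eq n u hfint
    rw [h1, hper.intervalIntegral_add_eq u d, hone]
    simp
  have hsplit : ∫ y in u..v, f y = (∫ y in u..(u + n • p), f y) + ∫ y in (u + n • p)..v, f y :=
    (intervalIntegral.integral_add_adjacent_intervals (hfint _ _) (hfint _ _)).symm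
  have hnp : (n • p : ℝ) = n * p := by simp
  have hrem0 : 0 ≤ ∫ y in (u + n • p)..v, f y :=
    intervalIntegral.integral_nonneg (by rw [hnp]; linarith) fun y _ => hf0 y
  have hrem1 : ∫ y in (u + n • p)..v, f y ≤ v - (u + n * p) := by
    have h1 : ∫ y in (u + n • p)..v, f y ≤ ∫ y in (u + n • p)..v, (1 : ℝ) :=
      intervalIntegral.integral_mono_on (by rw [hnp]; linarith) (hfint _ _)
        (by simp) fun y _ => hf1 y
    rw [hnp] at h1 ⊢
    simpa using h1
  rw [← hI u v huv, hsplit, hmain]
  have hA0 : 0 ≤ volume.real A := measureReal_nonneg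
  have hA2 := vol_real_le_one hA1
  have h6 : (v - (u + n * p)) * volume.real A ≤ p := by
    have h7 : v - (u + n * p) ≤ p := by linarith
    have h8 : 0 ≤ v - (u + n * p) := by linarith
    calc (v - (u + n * p)) * volume.real A ≤ p * 1 := by gcongr
      _ = p := by ring
  have h9 : 0 ≤ (v - (u + n * p)) * volume.real A := mul_nonneg (by linarith) hA0
  rw [abs_le]
  constructor
  · nlinarith
  · nlinarith

/-- Finite unions of half-open intervals, encoded by lists. -/
def U (L : List (ℝ × ℝ)) : Set ℝ := {y | ∃ I ∈ L, y ∈ Ico I.1 I.2}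

lemma U_nil : U [] = ∅ := by simp [U]
lemma U_cons (I : ℝ × ℝ) (L : List (ℝ × ℝ)) : U (I :: L) = Ico I.1 I.2 ∪ U L := by
  ext y; simp [U]
lemma U_append (L M : List (ℝ × ℝ)) : U (L ++ M) = U L ∪ U M := by
  ext y; simp only [U, List.mem_append, mem_ofPred_eq, mem_union]
  constructor
  · rintro ⟨I, hI | hI, h⟩
    · exact Or.inl ⟨I, hI, h⟩
    · exact Or.inr ⟨I, hI, h⟩
  · rintro (⟨I, hI, h⟩ | ⟨I, hI, h⟩)
    · exact ⟨I, Or.inl hI, h⟩
    · exact ⟨I, Or.inr hI, h⟩

lemma measurableSet_U (L : List (ℝ × ℝ)) : MeasurableSet (U L) := by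
  induction L with
  | nil => simp [U_nil]
  | cons I L ih => rw [U_cons]; exact measurableSet_Ico.union ih

lemma vol_U_ne_top (L : List (ℝ × ℝ)) : volume (U L) ≠ ⊤ := by
  induction L with
  | nil => simp [U_nil]
  | cons I L ih =>
    rw [U_cons]
    exact (measure_union_lt_top (by simp) ih.lt_top).ne

lemma U_inter_Ico (L : List (ℝ × ℝ)) (a b : ℝ) :
    U L ∩ Ico a b = U (L.map fun I => (max I.1 a, min I.2 b)) := by
  ext y
  simp only [U, mem_inter_iff, mem_ofPred_eq, List.mem_map]
  constructor
  · rintro ⟨⟨I, hI, h⟩, h2⟩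
    refine ⟨_, ⟨I, hI, rfl⟩, ?_⟩
    simp only [mem_Ico, max_le_iff, lt_min_iff] at *
    exact ⟨⟨h.1, h2.1⟩, h.2, h2.2⟩
  · rintro ⟨_, ⟨I, hI, rfl⟩, h⟩
    simp only [mem_Ico, max_le_iff, lt_min_iff] at *
    exact ⟨⟨I, hI, h.1.1, h.2.1⟩, h.1.2, h.2.2⟩

/-- equidistribution in a union of `n` intervals -/
lemma equi_U {A : Set ℝ} (hA : MeasurableSet A) (hA1 : A ⊆ Ico 0 1) {p : ℝ} (hp : 0 < p)
    (d : ℝ) (n : ℕ) : ∀ L : List (ℝ × ℝ), L.length = n →
    |volume.real (U L ∩ Per p d A) - volume.real A * volume.real (U L)| ≤ (2 ^ n - 1) * p := by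
  induction n with
  | zero =>
    intro L hL
    rw [List.length_eq_zero_iff] at hL
    subst hL
    simp [U_nil]
  | succ n ih =>
    intro L hL
    rcases L with _ | ⟨I, L⟩
    · simp at hL
    simp only [List.length_cons, Nat.add_right_cancel_iff] at hL
    have hP := measurableSet_Per p d hA
    have h1 := ih L hL
    have h2 := ih (L.map fun J => (max J.1 I.1, min J.2 I.2)) (by simpa using hL)
    rw [← U_inter_Ico] at h2
    have h3 := equi_interval hA hA1 hp d I.1 I.2
    have h4 : volume.real (Ico I.1 I.2) = max 0 (I.2 - I.1) := by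
      simp [Measure.real, Real.volume_Ico, ENNReal.toReal_ofReal', max_comm]
    have h5 : volume.real (Ico I.1 I.2 ∪ U L) + volume.real (Ico I.1 I.2 ∩ U L)
        = volume.real (Ico I.1 I.2) + volume.real (U L) :=
      measureReal_union_add_inter (measurableSet_U L) (by simp) (vol_U_ne_top L)
    have h6 : volume.real ((Ico I.1 I.2 ∩ Per p d A) ∪ (U L ∩ Per p d A))
        + volume.real ((Ico I.1 I.2 ∩ Per p d A) ∩ (U L ∩ Per p d A))
        = volume.real (Ico I.1 I.2 ∩ Per p d A) + volume.real (U L ∩ Per p d A) :=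
      measureReal_union_add_inter ((measurableSet_U L).inter hP)
        (ne_top_of_le_ne_top (by simp : volume (Ico I.1 I.2) ≠ ⊤) (measure_mono inter_subset_left))
        (ne_top_of_le_ne_top (vol_U_ne_top L) (measure_mono inter_subset_left))
    have h7 : (Ico I.1 I.2 ∩ Per p d A) ∪ (U L ∩ Per p d A) = U (I :: L) ∩ Per p d A := by
      rw [U_cons, union_inter_distrib_right]
    have h8 : (Ico I.1 I.2 ∩ Per p d A) ∩ (U L ∩ Per p d A) = U L ∩ Ico I.1 I.2 ∩ Per p d A := by
      ext y; simp only [mem_inter_iff]; tauto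
    rw [h7, h8] at h6
    rw [inter_comm (Ico I.1 I.2) (U L), ← U_cons] at h5
    rw [← h4] at h3
    have hp2 : (0 : ℝ) ≤ (2 ^ n - 1) * p := by
      have : (1 : ℝ) ≤ 2 ^ n := one_le_pow₀ (by norm_num)
      nlinarith
    rw [abs_le] at h1 h2 h3 ⊢
    have e : volume.real (U (I :: L) ∩ Per p d A) - volume.real A * volume.real (U (I :: L))
        = (volume.real (Ico I.1 I.2 ∩ Per p d A) - volume.real A * volume.real (Ico I.1 I.2))
        + (volume.real (U L ∩ Per p d A) - volume.real A * volume.real (U L))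
        - (volume.real (U L ∩ Ico I.1 I.2 ∩ Per p d A)
            - volume.real A * volume.real (U L ∩ Ico I.1 I.2)) := by
      have h9 : volume.real (U (I :: L) ∩ Per p d A)
        = volume.real (Ico I.1 I.2 ∩ Per p d A) + volume.real (U L ∩ Per p d A)
          - volume.real (U L ∩ Ico I.1 I.2 ∩ Per p d A) := by linarith
      have h10 : volume.real (U (I :: L)) = volume.real (Ico I.1 I.2) + volume.real (U L)
          - volume.real (U L ∩ Ico I.1 I.2) := by linarith
      rw [h9, h10]; ring
    rw [e, pow_succ]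
    constructor
    · nlinarith [h1.1, h2.2, h3.1]
    · nlinarith [h1.2, h2.1, h3.2]

end Pool.Agent.X104.Seg
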