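import Mathlib
import Pool.Agent.X104.Seg.Digits
import Pool.Agent.X104.Seg.Equi

set_option autoImplicit false

open Set MeasureTheory

namespace Pool.Agent.X104.Seg

/-- A tube: the set of points `(x, y)` with `a + b x ≤ y < a + b x + w`. -/
structure Tube where
  b : ℝ
  a : ℝ
  w : ℝ

/-- The slice at abscissa `x` of a union of tubes. -/
def sl (F : List Tube) (x : ℝ) : Set ℝ :=
  U (F.map fun t => (t.a + t.b * x, t.a + t.b * x + t.w))

lemma mem_sl {F : List Tube} {x y : ℝ} :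
    y ∈ sl F x ↔ ∃ t ∈ F, t.a + t.b * x ≤ y ∧ y < t.a + t.b * x + t.w := by
  simp only [sl, U, mem_ofPred_eq, List.mem_map]
  constructor
  · rintro ⟨I, ⟨t, ht, rfl⟩, h⟩
    exact ⟨t, ht, h.1, h.2⟩
  · rintro ⟨t, ht, h⟩
    exact ⟨_, ⟨t, ht, rfl⟩, h.1, h.2⟩

lemma sl_append (F G : List Tube) (x : ℝ) : sl (F ++ G) x = sl F x ∪ sl G x := by
  simp only [sl, List.map_append, U_append]

lemma measurableSet_sl (F : List Tube) (x : ℝ) : MeasurableSet (sl F x) := measurableSet_U _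

lemma vol_sl_ne_top (F : List Tube) (x : ℝ) : volume (sl F x) ≠ ⊤ := vol_U_ne_top _

/-- The tube has a slope which is a left endpoint, its width is a power of `1/3` and it stays in
the unit strip for `-1/2 ≤ x ≤ 7/10`. -/
def Good (t : Tube) : Prop :=
  (∃ n, t.b ∈ D n) ∧ (∃ m : ℕ, t.w = (1 / 3 : ℝ) ^ m) ∧
    ∀ x ∈ Icc (-1 / 2 : ℝ) (7 / 10), 0 ≤ t.a + t.b * x ∧ t.a + t.b * x + t.w ≤ 1

def Valid (F : List Tube) : Prop := ∀ t ∈ F, Good t

lemma Valid.append {F G : List Tube} (hF : Valid F) (hG : Valid G) : Valid (F ++ G) := by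
  intro t ht
  rcases List.mem_append.mp ht with h | h
  · exact hF t h
  · exact hG t h

lemma sl_subset {F : List Tube} (hF : Valid F) {x : ℝ} (hx : x ∈ Icc (-1 / 2 : ℝ) (7 / 10)) :
    sl F x ⊆ Ico 0 1 := by
  intro y hy
  obtain ⟨t, ht, h1, h2⟩ := mem_sl.mp hy
  obtain ⟨h3, h4⟩ := (hF t ht).2.2 x hx
  exact ⟨h3.trans h1, h2.trans_le h4⟩

/-- image of a tube under `(x, y) ↦ (x, d + e x + c y)` -/
def Tube.map (c e d : ℝ) (t : Tube) : Tube := ⟨e + c * t.b, d + c * t.a, c * t.w⟩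

lemma mem_sl_map {F : List Tube} {c e d x y : ℝ} (hc : 0 < c) :
    y ∈ sl (F.map (Tube.map c e d)) x ↔ (y - (d + e * x)) / c ∈ sl F x := by
  rw [mem_sl, mem_sl]
  have key : ∀ t : Tube, ((Tube.map c e d t).a + (Tube.map c e d t).b * x ≤ y ∧
      y < (Tube.map c e d t).a + (Tube.map c e d t).b * x + (Tube.map c e d t).w) ↔
      (t.a + t.b * x ≤ (y - (d + e * x)) / c ∧ (y - (d + e * x)) / c < t.a + t.b * x + t.w) := by
    intro t
    simp only [Tube.map]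
    rw [le_div_iff₀ hc, div_lt_iff₀ hc]
    constructor
    · rintro ⟨h1, h2⟩
      constructor <;> nlinarith
    · rintro ⟨h1, h2⟩
      constructor <;> nlinarith
  constructor
  · rintro ⟨t', ht', h⟩
    obtain ⟨t, ht, rfl⟩ := List.mem_map.mp ht'
    exact ⟨t, ht, (key t).mp h⟩
  · rintro ⟨t, ht, h⟩
    exact ⟨_, List.mem_map.mpr ⟨t, ht, rfl⟩, (key t).mpr h⟩

/-- `3^q` scaled copies stacked on top of each other. -/
noncomputable def stack (q : ℕ) (F : List Tube) : List Tube :=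
  (List.range (3 ^ q)).flatMap fun j : ℕ =>
    F.map (Tube.map ((1 / 3 : ℝ) ^ q) 0 ((1 / 3 : ℝ) ^ q * (j : ℝ)))

lemma mem_sl_stack {F : List Tube} {q : ℕ} {x : ℝ} (hs : sl F x ⊆ Ico 0 1) :
    sl (stack q F) x = Ico 0 1 ∩ Per ((1 / 3 : ℝ) ^ q) 0 (sl F x) := by
  have hc : (0 : ℝ) < (1 / 3) ^ q := by positivity
  have hc1 : (1 / 3 : ℝ) ^ q * 3 ^ q = 1 := by
    rw [← mul_pow]; norm_num
  ext y
  have h1 : y ∈ sl (stack q F) x ↔ ∃ j : ℕ, j < 3 ^ q ∧
      (y - ((1 / 3 : ℝ) ^ q * (j : ℝ))) / (1 / 3 : ℝ) ^ q ∈ sl F x := by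
    rw [mem_sl]
    constructor
    · rintro ⟨t, ht, h⟩
      simp only [stack, List.mem_flatMap, List.mem_range] at ht
      obtain ⟨j, hj, ht⟩ := ht
      refine ⟨j, hj, ?_⟩
      have := (mem_sl_map (F := F) (e := 0) (d := (1 / 3 : ℝ) ^ q * j) (x := x) (y := y) hc).mp
        (mem_sl.mpr ⟨t, ht, h⟩)
      simpa using this
    · rintro ⟨j, hj, h⟩
      have h2 : (y - ((1 / 3 : ℝ) ^ q * j + 0 * x)) / (1 / 3 : ℝ) ^ q ∈ sl F x := by simpa using h
      obtain ⟨t, ht, h3⟩ := mem_sl.mp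
        ((mem_sl_map (F := F) (e := 0) (d := (1 / 3 : ℝ) ^ q * j) (x := x) (y := y) hc).mpr h2)
      exact ⟨t, by
        simp only [stack, List.mem_flatMap, List.mem_range]
        exact ⟨j, hj, ht⟩, h3⟩
  rw [h1, mem_inter_iff, mem_Per]
  have h3 : ∀ j : ℕ, (y - ((1 / 3 : ℝ) ^ q * j)) / (1 / 3 : ℝ) ^ q
      = (y - 0) / (1 / 3 : ℝ) ^ q - j := by
    intro j; field_simp; ring
  constructor
  · rintro ⟨j, hj, h⟩
    rw [h3] at h
    have h4 := hs h
    have h5 : Int.fract ((y - 0) / (1 / 3 : ℝ) ^ q) = (y - 0) / (1 / 3 : ℝ) ^ q - j := by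
      rw [Int.fract_eq_iff]
      exact ⟨h4.1, h4.2, ⟨(j : ℤ), by simp⟩⟩
    refine ⟨?_, h5 ▸ h⟩
    have h6 : (j : ℝ) ≤ (y - 0) / (1 / 3 : ℝ) ^ q := by linarith [h4.1]
    have h7 : (y - 0) / (1 / 3 : ℝ) ^ q < (j : ℝ) + 1 := by linarith [h4.2]
    rw [le_div_iff₀ hc, sub_zero] at h6
    rw [div_lt_iff₀ hc, sub_zero] at h7
    constructor
    · exact le_trans (by positivity) h6
    · have h8 : (j : ℝ) + 1 ≤ 3 ^ q := by exact_mod_cast hj
      calc y < ((j : ℝ) + 1) * (1 / 3) ^ q := h7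
        _ ≤ 3 ^ q * (1 / 3) ^ q := by gcongr
        _ = 1 := by rw [mul_comm]; exact hc1
  · rintro ⟨⟨h4, h5⟩, h⟩
    set z := (y - 0) / (1 / 3 : ℝ) ^ q with hz
    have hz0 : 0 ≤ z := by rw [hz]; apply div_nonneg <;> [simpa using h4; exact hc.le]
    have hz1 : z < 3 ^ q := by
      rw [hz, div_lt_iff₀ hc, mul_comm, hc1]; simpa using h5
    refine ⟨⌊z⌋.toNat, ?_, ?_⟩
    · have h6 : (⌊z⌋ : ℝ) < 3 ^ q := (Int.floor_le z).trans_lt hz1
      have h7 : ⌊z⌋ < 3 ^ q := by exact_mod_cast h6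
      have h8 : 0 ≤ ⌊z⌋ := Int.floor_nonneg.mpr hz0
      zify
      rwa [Int.toNat_of_nonneg h8]
    · rw [h3]
      have h8 : 0 ≤ ⌊z⌋ := Int.floor_nonneg.mpr hz0
      have h9 : ((⌊z⌋.toNat : ℕ) : ℝ) = (⌊z⌋ : ℝ) := by
        have : ((⌊z⌋.toNat : ℕ) : ℤ) = ⌊z⌋ := Int.toNat_of_nonneg h8
        exact_mod_cast congrArg (Int.cast : ℤ → ℝ) this
      rw [h9]
      exact h

lemma Valid.stack {F : List Tube} (hF : Valid F) (q : ℕ) : Valid (stack q F) := by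
  intro t ht
  simp only [Seg.stack, List.mem_flatMap, List.mem_range, List.mem_map] at ht
  obtain ⟨j, hj, t, ht, rfl⟩ := ht
  obtain ⟨⟨n, hn⟩, ⟨m, hm⟩, hx⟩ := hF t ht
  have hc : (0 : ℝ) < (1 / 3) ^ q := by positivity
  have hc1 : (1 / 3 : ℝ) ^ q * 3 ^ q = 1 := by
    rw [← mul_pow]; norm_num
  refine ⟨⟨q + n, ?_⟩, ⟨q + m, ?_⟩, ?_⟩
  · simp only [Tube.map, zero_add]
    exact D_scale q hn
  · simp only [Tube.map, hm, pow_add]
  · intro x hxI
    obtain ⟨h1, h2⟩ := hx x hxI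
    simp only [Tube.map]
    have h8 : (j : ℝ) + 1 ≤ 3 ^ q := by exact_mod_cast hj
    have hj0 : (0 : ℝ) ≤ j := by positivity
    constructor
    · have : (1 / 3 : ℝ) ^ q * j + (1 / 3) ^ q * t.a + (0 + (1 / 3) ^ q * t.b) * x
          = (1 / 3) ^ q * (j + (t.a + t.b * x)) := by ring
      rw [this]; positivity
    · have : (1 / 3 : ℝ) ^ q * j + (1 / 3) ^ q * t.a + (0 + (1 / 3) ^ q * t.b) * x
          + (1 / 3) ^ q * t.w = (1 / 3) ^ q * (j + (t.a + t.b * x + t.w)) := by ring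
      rw [this]
      calc (1 / 3 : ℝ) ^ q * (j + (t.a + t.b * x + t.w)) ≤ (1 / 3 : ℝ) ^ q * 3 ^ q :=
            mul_le_mul_of_nonneg_left (by linarith) hc.le
        _ = 1 := hc1

lemma sl_map_stack {F : List Tube} {q : ℕ} {x c e d : ℝ} (hc : 0 < c) (hs : sl F x ⊆ Ico 0 1) :
    sl ((stack q F).map (Tube.map c e d)) x
      = Ico (d + e * x) (d + e * x + c) ∩ Per (c * (1 / 3 : ℝ) ^ q) (d + e * x) (sl F x) := by
  ext y
  rw [mem_sl_map hc, mem_sl_stack hs, mem_inter_iff, mem_inter_iff, mem_Per, mem_Per]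
  have h1 : (y - (d + e * x)) / c ∈ Ico (0 : ℝ) 1 ↔ y ∈ Ico (d + e * x) (d + e * x + c) := by
    simp only [mem_Ico]
    rw [le_div_iff₀ hc, div_lt_iff₀ hc]
    constructor
    · rintro ⟨h1, h2⟩; constructor <;> linarith
    · rintro ⟨h1, h2⟩; constructor <;> linarith
  have h2 : ((y - (d + e * x)) / c - 0) / (1 / 3 : ℝ) ^ q
      = (y - (d + e * x)) / (c * (1 / 3 : ℝ) ^ q) := by
    rw [sub_zero, div_div]
  rw [h1, h2]

/-- measure of a slice -/
noncomputable def bF (F : List Tube) (x : ℝ) : ℝ := volume.real (sl F x)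

lemma bF_nonneg (F : List Tube) (x : ℝ) : 0 ≤ bF F x := measureReal_nonneg

lemma bF_le_one {F : List Tube} (hF : Valid F) {x : ℝ} (hx : x ∈ Icc (-1 / 2 : ℝ) (7 / 10)) :
    bF F x ≤ 1 := vol_real_le_one (sl_subset hF hx)

lemma exists_pow_mul_le (C η : ℝ) (hη : 0 < η) (q0 : ℕ) :
    ∃ q ≥ q0, C * (1 / 3 : ℝ) ^ q ≤ η := by
  have h1 : Filter.Tendsto (fun q : ℕ => C * (1 / 3 : ℝ) ^ q) Filter.atTop (nhds (C * 0)) :=
    (tendsto_pow_atTop_nhds_zero_of_lt_one (by norm_num) (by norm_num)).const_mul C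
  rw [mul_zero] at h1
  have h2 := (h1.eventually_le_const hη).and (Filter.eventually_ge_atTop q0)
  obtain ⟨q, hq1, hq2⟩ := h2.exists
  exact ⟨q, hq2, hq1⟩

lemma superpose {F G : List Tube} (hF : Valid F) (hG : Valid G) {η : ℝ} (hη : 0 < η) :
    ∃ H, Valid H ∧ ∀ x ∈ Icc (-1 / 2 : ℝ) (7 / 10),
      |bF H x - (bF F x + bF G x - bF F x * bF G x)| ≤ η := by
  obtain ⟨q, -, hq⟩ := exists_pow_mul_le (2 ^ F.length) η hη 0
  refine ⟨F ++ stack q G, hF.append (hG.stack q), fun x hx => ?_⟩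
  have hp : (0 : ℝ) < (1 / 3) ^ q := by positivity
  have hsF := sl_subset hF hx
  have hsG := sl_subset hG hx
  have hst := mem_sl_stack (q := q) hsG
  have h1 := equi_interval (measurableSet_sl G x) hsG hp 0 0 1
  have h2 := equi_U (measurableSet_sl G x) hsG hp 0 F.length
    (F.map fun t => (t.a + t.b * x, t.a + t.b * x + t.w)) (by simp)
  rw [← hst] at h1
  change |volume.real (sl F x ∩ _) - volume.real (sl G x) * volume.real (sl F x)| ≤ _ at h2
  have h3 : sl F x ∩ Per ((1 / 3 : ℝ) ^ q) 0 (sl G x) = sl F x ∩ sl (stack q G) x := by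
    rw [hst, ← inter_assoc, inter_eq_left.mpr hsF]
  rw [h3] at h2
  have h4 : volume.real (sl F x ∪ sl (stack q G) x) + volume.real (sl F x ∩ sl (stack q G) x)
      = volume.real (sl F x) + volume.real (sl (stack q G) x) :=
    measureReal_union_add_inter (measurableSet_sl _ _) (vol_sl_ne_top _ _) (vol_sl_ne_top _ _)
  simp only [bF, sl_append]
  have h5 : max (0 : ℝ) (1 - 0) = 1 := by norm_num
  rw [h5, mul_one] at h1
  rw [abs_le] at h1 h2 ⊢
  have h6 : (2 ^ F.length - 1) * (1 / 3 : ℝ) ^ q + (1 / 3) ^ q ≤ η := by linarith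
  constructor
  · nlinarith [h1.1, h2.2]
  · nlinarith [h1.2, h2.1]

end Pool.Agent.X104.Seg
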