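import Mathlib
import Pool.Agent.X104.Seg.Conf

set_option autoImplicit false

open Set MeasureTheory

namespace Pool.Agent.X104.Seg

lemma Valid.mapA {F : List Tube} (hF : Valid F) {d : ℝ} (hd0 : 0 ≤ d) (hd1 : d ≤ 2 / 3) :
    Valid (F.map (Tube.map (1 / 3) 0 d)) := by
  intro t' ht'
  obtain ⟨t, ht, rfl⟩ := List.mem_map.mp ht'
  obtain ⟨⟨n, hn⟩, ⟨m, hm⟩, hx⟩ := hF t ht
  refine ⟨⟨1 + n, ?_⟩, ⟨m + 1, ?_⟩, ?_⟩
  · have := D_scale 1 hn
    simpa [Tube.map] using this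
  · simp only [Tube.map, hm]; ring
  · intro x hxI
    obtain ⟨h1, h2⟩ := hx x hxI
    simp only [Tube.map]
    constructor
    · nlinarith
    · nlinarith

lemma Valid.mapB {F : List Tube} (hF : Valid F) {q : ℕ} (hq : 1 ≤ q) {x0 : ℝ}
    (hx0 : x0 ∈ Icc (6 / 10 : ℝ) (7 / 10)) :
    Valid ((Seg.stack q F).map (Tube.map (1 / 3) (2 / 9) (1 / 3 - 2 / 9 * x0))) := by
  intro t' ht'
  obtain ⟨t, ht, rfl⟩ := List.mem_map.mp ht'
  -- get the slope information from the stack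
  have hst := (hF.stack q) t ht
  obtain ⟨-, ⟨m, hm⟩, hx⟩ := hst
  simp only [Seg.stack, List.mem_flatMap, List.mem_range, List.mem_map] at ht
  obtain ⟨j, hj, u, hu, hut⟩ := ht
  obtain ⟨⟨n, hn⟩, -, -⟩ := hF u hu
  refine ⟨⟨2 + (q - 1 + n), ?_⟩, ⟨m + 1, ?_⟩, ?_⟩
  · have h1 : (1 / 3 : ℝ) ^ (q - 1) * u.b ∈ D (q - 1 + n) := D_scale (q - 1) hn
    have h2 := D_add two_ninths_mem h1
    have h3 : (Tube.map (1 / 3) (2 / 9) (1 / 3 - 2 / 9 * x0) t).b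
        = 2 / 9 + (1 / 3 : ℝ) ^ 2 * ((1 / 3 : ℝ) ^ (q - 1) * u.b) := by
      rw [← hut]
      simp only [Tube.map]
      have h4 : (1 / 3 : ℝ) ^ q = (1 / 3) ^ (q - 1) * (1 / 3) := by
        rw [← pow_succ]; congr 1; omega
      rw [h4]; ring
    rw [h3]
    exact h2
  · simp only [Tube.map, hm]; ring
  · intro x hxI
    obtain ⟨h1, h2⟩ := hx x hxI
    obtain ⟨h3, h4⟩ := hxI
    obtain ⟨h5, h6⟩ := hx0
    simp only [Tube.map]
    constructor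
    · nlinarith
    · nlinarith

lemma pivot_step {F : List Tube} (hF : Valid F) {x0 : ℝ} (hx0 : x0 ∈ Icc (6 / 10 : ℝ) (7 / 10))
    {η : ℝ} (hη : 0 < η) :
    ∃ H, Valid H ∧ ∀ x ∈ Icc (-1 / 2 : ℝ) (7 / 10),
      |bF H x - (bF F x - 2 / 9 * |x - x0| * bF F x ^ 2)| ≤ η := by
  obtain ⟨q1, -, hq1⟩ := exists_pow_mul_le 4 (η / 2) (by positivity) 0
  set R : ℕ := ((stack q1 F).map (Tube.map (1 / 3) 0 0)
    ++ (stack q1 F).map (Tube.map (1 / 3) 0 (2 / 3))).length with hR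
  obtain ⟨q2, hq2', hq2⟩ := exists_pow_mul_le (2 ^ R) (η / 2) (by positivity) 1
  refine ⟨((stack q1 F).map (Tube.map (1 / 3) 0 0)
    ++ (stack q1 F).map (Tube.map (1 / 3) 0 (2 / 3)))
    ++ (stack q2 F).map (Tube.map (1 / 3) (2 / 9) (1 / 3 - 2 / 9 * x0)), ?_, ?_⟩
  · exact (((hF.stack q1).mapA le_rfl (by norm_num)).append
      ((hF.stack q1).mapA (by norm_num) le_rfl)).append (hF.mapB hq2' hx0)
  intro x hx
  have hs := sl_subset hF hx
  have hA := measurableSet_sl F x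
  set A := sl F x with hAdef
  have hc : (0 : ℝ) < 1 / 3 := by norm_num
  have e1 := sl_map_stack (q := q1) (x := x) (d := 0) (e := 0) hc hs
  have e3 := sl_map_stack (q := q1) (x := x) (d := 2 / 3) (e := 0) hc hs
  have e2 := sl_map_stack (q := q2) (x := x) (d := 1 / 3 - 2 / 9 * x0) (e := 2 / 9) hc hs
  set δ : ℝ := 2 / 9 * (x - x0) with hδ
  set p1 : ℝ := 1 / 3 * (1 / 3) ^ q1 with hp1
  set p2 : ℝ := 1 / 3 * (1 / 3) ^ q2 with hp2
  have hp1pos : 0 < p1 := by positivity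
  have hp2pos : 0 < p2 := by positivity
  have hδ1 : -(1 / 3) ≤ δ := by rw [hδ]; nlinarith [hx.1, hx0.2]
  have hδ2 : δ ≤ 1 / 3 := by rw [hδ]; nlinarith [hx.2, hx0.1]
  rw [show (0 : ℝ) + 0 * x = 0 by ring, show (0 : ℝ) + 1 / 3 = 1 / 3 by ring] at e1
  rw [show (2 / 3 : ℝ) + 0 * x = 2 / 3 by ring, show (2 / 3 : ℝ) + 1 / 3 = 1 by norm_num] at e3
  rw [show (1 / 3 - 2 / 9 * x0 + 2 / 9 * x : ℝ) = 1 / 3 + δ by rw [hδ]; ring,
    show (1 / 3 + δ + 1 / 3 : ℝ) = 2 / 3 + δ by ring] at e2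
  set L13 := (stack q1 F).map (Tube.map (1 / 3) 0 0)
    ++ (stack q1 F).map (Tube.map (1 / 3) 0 (2 / 3)) with hL13
  have e13 : sl L13 x = (Ico 0 (1 / 3) ∩ Per p1 0 A) ∪ (Ico (2 / 3) 1 ∩ Per p1 (2 / 3) A) := by
    rw [hL13, sl_append, e1, e3]
  -- measures of the pieces
  set α : ℝ := volume.real A with hα
  have hα0 : 0 ≤ α := measureReal_nonneg
  have hα1 : α ≤ 1 := vol_real_le_one hs
  have m1 := equi_interval hA hs hp1pos 0 0 (1 / 3)
  have m3 := equi_interval hA hs hp1pos (2 / 3) (2 / 3) 1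
  have m2 := equi_interval hA hs hp2pos (1 / 3 + δ) (1 / 3 + δ) (2 / 3 + δ)
  rw [max_eq_right (by norm_num)] at m1 m3
  rw [max_eq_right (by linarith)] at m2
  -- overlap
  have o1 := equi_interval hA hs hp1pos 0 (max 0 (1 / 3 + δ)) (min (1 / 3) (2 / 3 + δ))
  have o3 := equi_interval hA hs hp1pos (2 / 3) (max (2 / 3) (1 / 3 + δ)) (min 1 (2 / 3 + δ))
  have l1 : max (0 : ℝ) (min (1 / 3) (2 / 3 + δ) - max 0 (1 / 3 + δ)) = max 0 (-δ) := by
    rw [max_eq_right (by linarith : (0 : ℝ) ≤ 1 / 3 + δ),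
      min_eq_left (by linarith : (1 / 3 : ℝ) ≤ 2 / 3 + δ)]
    congr 1; ring
  have l3 : max (0 : ℝ) (min 1 (2 / 3 + δ) - max (2 / 3) (1 / 3 + δ)) = max 0 δ := by
    rw [max_eq_left (by linarith : (1 / 3 + δ : ℝ) ≤ 2 / 3),
      min_eq_right (by linarith : (2 / 3 + δ : ℝ) ≤ 1)]
    congr 1; ring
  rw [l1] at o1
  rw [l3] at o3
  have labs : max 0 (-δ) + max 0 δ = |δ| := by
    rcases le_total 0 δ with h | h
    · rw [max_eq_left (by linarith), max_eq_right h, abs_of_nonneg h]; ring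
    · rw [max_eq_right (by linarith), max_eq_left h, abs_of_nonpos h]; ring
  -- the window
  set W := sl L13 x ∩ Ico (1 / 3 + δ) (2 / 3 + δ) with hW
  have hWU : ∃ L : List (ℝ × ℝ), L.length = R ∧ W = U L := by
    refine ⟨(L13.map fun t => (t.a + t.b * x, t.a + t.b * x + t.w)).map
      fun I => (max I.1 (1 / 3 + δ), min I.2 (2 / 3 + δ)), by simp [hR], ?_⟩
    rw [hW, sl, U_inter_Ico]
  obtain ⟨L, hLlen, hLW⟩ := hWU
  have w1 := equi_U hA hs hp2pos (1 / 3 + δ) R L hLlen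
  rw [← hLW] at w1
  have hdisj : Disjoint (Ico (0 : ℝ) (1 / 3) ∩ Per p1 0 A)
      (Ico (2 / 3) 1 ∩ Per p1 (2 / 3) A) := by
    rw [Set.disjoint_left]
    rintro y ⟨hy1, -⟩ ⟨hy2, -⟩
    linarith [hy1.2, hy2.1]
  have hfin : ∀ a b p d : ℝ, volume (Ico a b ∩ Per p d A) ≠ ⊤ := fun a b p d =>
    ne_top_of_le_ne_top (by simp : volume (Ico a b) ≠ ⊤) (measure_mono inter_subset_left)
  have hmeas : ∀ a b p d : ℝ, MeasurableSet (Ico a b ∩ Per p d A) := fun a b p d =>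
    measurableSet_Ico.inter (measurableSet_Per p d hA)
  have v13 : volume.real (sl L13 x) = volume.real (Ico (0 : ℝ) (1 / 3) ∩ Per p1 0 A)
      + volume.real (Ico (2 / 3 : ℝ) 1 ∩ Per p1 (2 / 3) A) := by
    rw [e13]
    exact measureReal_union hdisj (hmeas _ _ _ _) (hfin _ _ _ _) (hfin _ _ _ _)
  have vW : volume.real W
      = volume.real (Ico (max 0 (1 / 3 + δ)) (min (1 / 3) (2 / 3 + δ)) ∩ Per p1 0 A)
      + volume.real (Ico (max (2 / 3) (1 / 3 + δ)) (min 1 (2 / 3 + δ)) ∩ Per p1 (2 / 3) A) := by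
    have hWe : W = (Ico (max 0 (1 / 3 + δ)) (min (1 / 3) (2 / 3 + δ)) ∩ Per p1 0 A)
        ∪ (Ico (max (2 / 3) (1 / 3 + δ)) (min 1 (2 / 3 + δ)) ∩ Per p1 (2 / 3) A) := by
      rw [hW, e13, union_inter_distrib_right]
      congr 1
      · rw [← Ico_inter_Ico]
        ext y; simp only [mem_inter_iff]; tauto
      · rw [← Ico_inter_Ico]
        ext y; simp only [mem_inter_iff]; tauto
    rw [hWe]
    refine measureReal_union ?_ (hmeas _ _ _ _) (hfin _ _ _ _) (hfin _ _ _ _)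
    rw [Set.disjoint_left]
    rintro y ⟨hy1, -⟩ ⟨hy2, -⟩
    have := hy1.2.trans_le (min_le_left _ _)
    have := (le_max_left _ _).trans hy2.1
    linarith
  have hint : sl L13 x ∩ sl ((stack q2 F).map (Tube.map (1 / 3) (2 / 9) (1 / 3 - 2 / 9 * x0))) x
      = W ∩ Per p2 (1 / 3 + δ) A := by
    rw [e2, hW, inter_assoc]
  have hun : volume.real (sl L13 x ∪
      sl ((stack q2 F).map (Tube.map (1 / 3) (2 / 9) (1 / 3 - 2 / 9 * x0))) x)
      + volume.real (W ∩ Per p2 (1 / 3 + δ) A)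
      = volume.real (sl L13 x) + volume.real (Ico (1 / 3 + δ) (2 / 3 + δ) ∩
          Per p2 (1 / 3 + δ) A) := by
    rw [← hint, measureReal_union_add_inter (measurableSet_sl _ _) (vol_sl_ne_top _ _)
      (vol_sl_ne_top _ _), e2]
  have hδabs : 2 / 9 * |x - x0| = |δ| := by
    rw [hδ, abs_mul, abs_of_pos (by norm_num : (0 : ℝ) < 2 / 9)]
  change |bF (L13 ++ _) x - _| ≤ _
  rw [hδabs]
  simp only [bF, sl_append]
  rw [← hAdef, ← hα]
  have hδ3 : |δ| ≤ 1 / 3 := abs_le.mpr ⟨hδ1, hδ2⟩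
  have herr1 : 4 * p1 ≤ η / 2 := by
    have : p1 ≤ (1 / 3 : ℝ) ^ q1 := by
      rw [hp1]
      have : (0 : ℝ) < (1 / 3) ^ q1 := by positivity
      linarith
    linarith
  have herr2 : 2 ^ R * p2 ≤ η / 2 := by
    have h1 : p2 ≤ (1 / 3 : ℝ) ^ q2 := by
      rw [hp2]
      have : (0 : ℝ) < (1 / 3) ^ q2 := by positivity
      linarith
    have h2 : (0 : ℝ) < 2 ^ R := by positivity
    calc (2 : ℝ) ^ R * p2 ≤ 2 ^ R * (1 / 3 : ℝ) ^ q2 := by gcongr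
      _ ≤ η / 2 := hq2
  have vWb : abs (volume.real W - α * |δ|) ≤ 2 * p1 := by
    rw [vW, ← labs]
    rw [abs_le] at o1 o3 ⊢
    constructor <;> nlinarith [o1.1, o1.2, o3.1, o3.2]
  have hαW : abs (α * volume.real W - α * (α * |δ|)) ≤ 2 * p1 := by
    rw [← mul_sub, abs_mul, abs_of_nonneg hα0]
    calc α * abs (volume.real W - α * |δ|) ≤ 1 * (2 * p1) := by gcongr
      _ = 2 * p1 := by ring
  have main : volume.real (sl L13 x ∪
      sl ((stack q2 F).map (Tube.map (1 / 3) (2 / 9) (1 / 3 - 2 / 9 * x0))) x)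
      = volume.real (Ico (0 : ℝ) (1 / 3) ∩ Per p1 0 A)
      + volume.real (Ico (2 / 3 : ℝ) 1 ∩ Per p1 (2 / 3) A)
      + volume.real (Ico (1 / 3 + δ) (2 / 3 + δ) ∩ Per p2 (1 / 3 + δ) A)
      - volume.real (W ∩ Per p2 (1 / 3 + δ) A) := by
    linarith
  rw [main]
  rw [abs_le] at m1 m2 m3 w1 hαW ⊢
  have h1 : (2 ^ R - 1) * p2 + p2 = 2 ^ R * p2 := by ring
  constructor
  · nlinarith [m1.1, m2.1, m3.1, w1.2, hαW.2]
  · nlinarith [m1.2, m2.2, m3.2, w1.1, hαW.1]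

end Pool.Agent.X104.Seg
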