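import Mathlib
import Pool.Agent.X104.Seg.Step

set_option autoImplicit false

open Set MeasureTheory

namespace Pool.Agent.X104.Seg

/-- the limiting profile after `k` pivot steps -/
noncomputable def g : ℕ → ℝ → ℝ
  | 0, _ => 1
  | k + 1, θ => g k θ - θ * g k θ ^ 2

lemma g_bounds {θ : ℝ} (h0 : 0 ≤ θ) (h1 : θ ≤ 1 / 3) (k : ℕ) :
    1 / (1 + 3 / 2 * k * θ) ≤ g k θ ∧ g k θ ≤ 1 / (1 + k * θ) := by
  induction k with
  | zero => simp [g]
  | succ k ih =>
    obtain ⟨ih1, ih2⟩ := ih
    have hk : (0 : ℝ) ≤ k := by positivity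
    have hA : (0 : ℝ) < 1 + 3 / 2 * k * θ := by positivity
    have hB : (0 : ℝ) < 1 + k * θ := by positivity
    have hl0 : 0 < 1 / (1 + 3 / 2 * k * θ) := by positivity
    have hu1 : 1 / (1 + k * θ) ≤ 1 := by
      rw [div_le_one hB]
      nlinarith [mul_nonneg hk h0]
    simp only [g]
    have hmono : ∀ a b : ℝ, 0 ≤ a → a ≤ b → b ≤ 1 → a - θ * a ^ 2 ≤ b - θ * b ^ 2 := by
      intro a b ha hab hb
      have h2 : 0 ≤ (b - a) * (1 - θ * (a + b)) := by
        apply mul_nonneg (by linarith)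
        nlinarith
      nlinarith
    constructor
    · have h2 := hmono _ _ hl0.le ih1 (ih2.trans hu1)
      refine le_trans ?_ h2
      have e : 1 / (1 + 3 / 2 * (k : ℝ) * θ) - θ * (1 / (1 + 3 / 2 * k * θ)) ^ 2
          = (1 + 3 / 2 * k * θ - θ) / (1 + 3 / 2 * k * θ) ^ 2 := by
        field_simp
      rw [e]
      push_cast
      have hC : (0 : ℝ) < 1 + 3 / 2 * (k + 1) * θ := by positivity
      rw [div_le_div_iff₀ hC (by positivity)]
      nlinarith [mul_nonneg hk h0, mul_nonneg h0 (mul_nonneg hk h0)]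
    · have h2 := hmono _ _ (hl0.le.trans ih1) ih2 hu1
      refine le_trans h2 ?_
      have e : 1 / (1 + (k : ℝ) * θ) - θ * (1 / (1 + k * θ)) ^ 2
          = (1 + k * θ - θ) / (1 + k * θ) ^ 2 := by
        field_simp
      rw [e]
      push_cast
      have hC : (0 : ℝ) < 1 + (k + 1) * θ := by positivity
      rw [div_le_div_iff₀ (by positivity) hC]
      nlinarith [mul_nonneg hk h0, mul_nonneg h0 h0]

lemma theta_bound {x x0 : ℝ} (hx : x ∈ Icc (-1 / 2 : ℝ) (7 / 10))
    (hx0 : x0 ∈ Icc (6 / 10 : ℝ) (7 / 10)) : 2 / 9 * |x - x0| ≤ 1 / 3 := by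
  have : |x - x0| ≤ 6 / 5 := by
    rw [abs_le]; constructor <;> linarith [hx.1, hx.2, hx0.1, hx0.2]
  linarith

lemma pivot_config (K : ℕ) {x0 : ℝ} (hx0 : x0 ∈ Icc (6 / 10 : ℝ) (7 / 10)) :
    ∀ {η : ℝ}, 0 < η → ∃ F, Valid F ∧ ∀ x ∈ Icc (-1 / 2 : ℝ) (7 / 10),
      |bF F x - g K (2 / 9 * |x - x0|)| ≤ η := by
  induction K with
  | zero =>
    intro η hη
    refine ⟨[⟨0, 0, 1⟩], ?_, ?_⟩
    · intro t ht
      simp only [List.mem_singleton] at ht
      subst ht
      refine ⟨⟨0, by simp [D_zero]⟩, ⟨0, by simp⟩, fun x _ => by simp⟩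
    · intro x _
      have : sl [⟨0, 0, 1⟩] x = Ico 0 1 := by
        ext y; simp [mem_sl]
      simp [bF, this, g, hη.le]
  | succ K ih =>
    intro η hη
    obtain ⟨F, hF, h1⟩ := ih (η := η / 2) (by positivity)
    obtain ⟨H, hH, h2⟩ := pivot_step hF hx0 (η := η / 2) (by positivity)
    refine ⟨H, hH, fun x hx => ?_⟩
    have h3 := h1 x hx
    have h4 := h2 x hx
    set θ := 2 / 9 * |x - x0| with hθ
    have hθ0 : 0 ≤ θ := by positivity
    have hθ1 : θ ≤ 1 / 3 := theta_bound hx hx0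
    have hb0 := bF_nonneg F x
    have hb1 := bF_le_one hF hx
    obtain ⟨hg1, hg2⟩ := g_bounds hθ0 hθ1 K
    have hg0 : 0 ≤ g K θ := le_trans (by positivity) hg1
    have hg1' : g K θ ≤ 1 := by
      refine hg2.trans ?_
      rw [div_le_one (by positivity)]
      have : (0 : ℝ) ≤ K * θ := by positivity
      linarith
    simp only [g]
    have e : bF H x - (g K θ - θ * g K θ ^ 2)
        = (bF H x - (bF F x - θ * bF F x ^ 2)) + (bF F x - g K θ) * (1 - θ * (bF F x + g K θ)) := by
      ring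
    rw [e]
    have h5 : 0 ≤ 1 - θ * (bF F x + g K θ) := by nlinarith
    have h6 : 1 - θ * (bF F x + g K θ) ≤ 1 := by
      have : 0 ≤ θ * (bF F x + g K θ) := by positivity
      linarith
    calc |(bF H x - (bF F x - θ * bF F x ^ 2)) + (bF F x - g K θ) * (1 - θ * (bF F x + g K θ))|
        ≤ |bF H x - (bF F x - θ * bF F x ^ 2)|
          + |(bF F x - g K θ) * (1 - θ * (bF F x + g K θ))| := abs_add_le _ _
      _ = |bF H x - (bF F x - θ * bF F x ^ 2)|
          + |bF F x - g K θ| * (1 - θ * (bF F x + g K θ)) := by rw [abs_mul, abs_of_nonneg h5]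
      _ ≤ η / 2 + η / 2 * 1 := by gcongr
      _ = η := by ring

lemma superpose_many (n : ℕ) (Fs : ℕ → List Tube) (hFs : ∀ i < n, Valid (Fs i)) :
    ∀ {η : ℝ}, 0 < η → ∃ H, Valid H ∧ ∀ x ∈ Icc (-1 / 2 : ℝ) (7 / 10),
      bF H x ≤ ∑ i ∈ Finset.range n, bF (Fs i) x + η ∧
      1 - bF H x ≤ Real.exp (-∑ i ∈ Finset.range n, bF (Fs i) x) + η := by
  induction n with
  | zero =>
    intro η hη
    refine ⟨[], by intro t ht; simp at ht, fun x _ => ?_⟩
    have : sl [] x = ∅ := by ext y; simp [mem_sl]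
    simp [bF, this, hη.le]
  | succ n ih =>
    intro η hη
    obtain ⟨H, hH, h1⟩ := ih (fun i hi => hFs i (by omega)) (η := η / 2) (by positivity)
    obtain ⟨H', hH', h2⟩ := superpose hH (hFs n (by omega)) (η := η / 2) (by positivity)
    refine ⟨H', hH', fun x hx => ?_⟩
    obtain ⟨h3, h4⟩ := h1 x hx
    have h5 := h2 x hx
    rw [abs_le] at h5
    have hf0 := bF_nonneg (Fs n) x
    have hf1 := bF_le_one (hFs n (by omega)) hx
    have hh0 := bF_nonneg H x
    have hh1 := bF_le_one hH hx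
    rw [Finset.sum_range_succ]
    set S := ∑ i ∈ Finset.range n, bF (Fs i) x
    constructor
    · nlinarith [h5.2, mul_nonneg hh0 hf0]
    · have h6 : 1 - bF (Fs n) x ≤ Real.exp (-bF (Fs n) x) := by
        have := Real.add_one_le_exp (-bF (Fs n) x)
        linarith
      have h7 : Real.exp (-(S + bF (Fs n) x)) = Real.exp (-S) * Real.exp (-bF (Fs n) x) := by
        rw [← Real.exp_add]; congr 1; ring
      rw [h7]
      have h8 : 1 - bF H' x ≤ (1 - bF H x) * (1 - bF (Fs n) x) + η / 2 := by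
        nlinarith [h5.1]
      have h9 : (1 - bF H x) * (1 - bF (Fs n) x) ≤ (Real.exp (-S) + η / 2) * (1 - bF (Fs n) x) :=
        mul_le_mul_of_nonneg_right h4 (by linarith)
      have h10 : Real.exp (-S) * (1 - bF (Fs n) x)
          ≤ Real.exp (-S) * Real.exp (-bF (Fs n) x) :=
        mul_le_mul_of_nonneg_left h6 (Real.exp_nonneg _)
      have h11 : η / 2 * (1 - bF (Fs n) x) ≤ η / 2 := by nlinarith
      nlinarith

/-- sum over pivots close to `i0` -/
lemma harmonic_lower (Q i0 : ℕ) (hi0 : i0 < 2 * Q) :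
    ∑ j ∈ Finset.range Q, 1 / ((j : ℝ) + 1)
      ≤ ∑ i ∈ Finset.range (2 * Q), 1 / (|(i : ℝ) - i0| + 1) := by
  have hnn : ∀ i : ℕ, (0 : ℝ) ≤ 1 / (|(i : ℝ) - i0| + 1) := fun i => by positivity
  rcases le_or_gt Q i0 with h | h
  · have h1 : ∑ j ∈ Finset.range Q, 1 / ((j : ℝ) + 1)
        = ∑ i ∈ (Finset.range Q).image (fun j => i0 - j), 1 / (|(i : ℝ) - i0| + 1) := by
      rw [Finset.sum_image]
      · refine Finset.sum_congr rfl fun j hj => ?_
        have hj' := Finset.mem_range.mp hj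
        have : ((i0 - j : ℕ) : ℝ) = (i0 : ℝ) - j := by
          rw [Nat.cast_sub (by omega)]
        rw [this]
        have h2 : |(i0 : ℝ) - j - i0| = j := by
          rw [show (i0 : ℝ) - j - i0 = -(j : ℝ) by ring, abs_neg, abs_of_nonneg (by positivity)]
        rw [h2]
      · intro a ha b hb hab
        have ha' := Finset.mem_range.mp ha
        have hb' := Finset.mem_range.mp hb
        simp only at hab
        omega
    rw [h1]
    refine Finset.sum_le_sum_of_subset_of_nonneg ?_ fun i _ _ => hnn i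
    intro i hi
    obtain ⟨j, hj, rfl⟩ := Finset.mem_image.mp hi
    rw [Finset.mem_range]
    omega
  · have h1 : ∑ j ∈ Finset.range Q, 1 / ((j : ℝ) + 1)
        = ∑ i ∈ (Finset.range Q).image (fun j => i0 + j), 1 / (|(i : ℝ) - i0| + 1) := by
      rw [Finset.sum_image]
      · refine Finset.sum_congr rfl fun j hj => ?_
        have h2 : |((i0 + j : ℕ) : ℝ) - i0| = j := by
          push_cast
          rw [show (i0 : ℝ) + j - i0 = (j : ℝ) by ring, abs_of_nonneg (by positivity)]
        rw [h2]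
      · intro a ha b hb hab
        simp only at hab
        omega
    rw [h1]
    refine Finset.sum_le_sum_of_subset_of_nonneg ?_ fun i _ _ => hnn i
    intro i hi
    obtain ⟨j, hj, rfl⟩ := Finset.mem_image.mp hi
    have := Finset.mem_range.mp hj
    rw [Finset.mem_range]
    omega

/-- The key configuration: almost null over the body, almost full over the reach. -/
theorem main_config {ε : ℝ} (hε : 0 < ε) :
    ∃ F, Valid F ∧ (∀ x ∈ Icc (-1 / 2 : ℝ) (1 / 2), bF F x ≤ ε) ∧
      ∀ x ∈ Ico (6 / 10 : ℝ) (7 / 10), 1 - ε ≤ bF F x := by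
  obtain ⟨L, hL⟩ := exists_nat_gt (3 / ε)
  have hL0 : (0 : ℝ) < L := lt_trans (by positivity) hL
  have hL1 : 1 ≤ L := by exact_mod_cast hL0
  have hL1' : (1 : ℝ) ≤ L := by exact_mod_cast hL1
  set T : ℝ := Real.log (2 / ε) with hT
  have hharm := Real.tendsto_sum_range_one_div_nat_succ_atTop
  obtain ⟨Q, hQ1, hQ2⟩ := ((hharm.eventually_ge_atTop (2 * L * (T + 1))).and
    (Filter.eventually_ge_atTop 1)).exists
  set P : ℕ := 2 * Q with hP
  have hPpos : (0 : ℝ) < P := by
    have : 0 < P := by omega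
    exact_mod_cast this
  set K : ℕ := 30 * P * L with hK
  have hKpos : (0 : ℝ) < K := by
    have : 0 < K := by
      rw [hK]; apply Nat.mul_pos <;> omega
    exact_mod_cast this
  have hKeq : (K : ℝ) = 30 * P * L := by rw [hK]; push_cast; ring
  set ρ : ℝ := min (ε / 4) 1 / P with hρ
  have hρpos : 0 < ρ := by positivity
  set piv : ℕ → ℝ := fun i => 6 / 10 + i / (10 * P) with hpiv
  have hpivmem : ∀ i < P, piv i ∈ Icc (6 / 10 : ℝ) (7 / 10) := by
    intro i hi
    have hi' : (i : ℝ) ≤ P := by exact_mod_cast hi.le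
    simp only [hpiv]
    constructor
    · have : (0 : ℝ) ≤ i / (10 * P) := by positivity
      linarith
    · have : (i : ℝ) / (10 * P) ≤ 1 / 10 := by
        rw [div_le_div_iff₀ (by positivity) (by norm_num)]
        linarith
      linarith
  have hex : ∀ i : ℕ, ∃ F, i < P → (Valid F ∧ ∀ x ∈ Icc (-1 / 2 : ℝ) (7 / 10),
      |bF F x - g K (2 / 9 * |x - piv i|)| ≤ ρ) := by
    intro i
    by_cases hi : i < P
    · obtain ⟨F, hF1, hF2⟩ := pivot_config K (hpivmem i hi) hρpos
      exact ⟨F, fun _ => ⟨hF1, hF2⟩⟩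
    · exact ⟨[], fun h => absurd h hi⟩
  choose Fs hFs using hex
  obtain ⟨H, hH, hH2⟩ := superpose_many P Fs (fun i hi => (hFs i hi).1) (η := ε / 4)
    (by positivity)
  have hsumρ : (P : ℝ) * ρ = min (ε / 4) 1 := by
    rw [hρ]; field_simp
  refine ⟨H, hH, fun x hx => ?_, fun x hx => ?_⟩
  · -- body
    have hxI : x ∈ Icc (-1 / 2 : ℝ) (7 / 10) := ⟨hx.1, hx.2.trans (by norm_num)⟩
    refine (hH2 x hxI).1.trans ?_
    have h1 : ∀ i ∈ Finset.range P, bF (Fs i) x ≤ 3 / (2 * P * L) + ρ := by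
      intro i hi
      have hi' := Finset.mem_range.mp hi
      have h2 := (hFs i hi').2 x hxI
      rw [abs_le] at h2
      have hθ0 : 0 ≤ 2 / 9 * |x - piv i| := by positivity
      have h3 := (g_bounds hθ0 (theta_bound hxI (hpivmem i hi')) K).2
      have h4 : 1 / 10 ≤ |x - piv i| := by
        have := (hpivmem i hi').1
        rw [abs_sub_comm, abs_of_nonneg (by linarith [hx.2])]
        linarith [hx.2]
      have h5 : 1 / (1 + K * (2 / 9 * |x - piv i|)) ≤ 3 / (2 * P * L) := by
        rw [div_le_div_iff₀ (by positivity) (by positivity)]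
        have h6 : (K : ℝ) * (2 / 9 * (1 / 10)) ≤ K * (2 / 9 * |x - piv i|) := by gcongr
        rw [hKeq] at h6 ⊢
        nlinarith
      linarith [h2.2]
    have h2 : ∑ i ∈ Finset.range P, bF (Fs i) x ≤ P * (3 / (2 * P * L) + ρ) := by
      have := Finset.sum_le_sum h1
      rw [Finset.sum_const, Finset.card_range, nsmul_eq_mul] at this
      exact this
    have h3 : (P : ℝ) * (3 / (2 * P * L) + ρ) = 3 / (2 * L) + min (ε / 4) 1 := by
      rw [mul_add, hsumρ]; field_simp
    have h4 : 3 / (2 * (L : ℝ)) ≤ ε / 2 := by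
      rw [div_le_div_iff₀ (by positivity) (by norm_num)]
      rw [div_lt_iff₀ hε] at hL
      nlinarith
    have h5 := min_le_left (ε / 4) 1
    linarith
  · -- reach
    have hxI : x ∈ Icc (-1 / 2 : ℝ) (7 / 10) := ⟨by linarith [hx.1], hx.2.le⟩
    have h1 := (hH2 x hxI).2
    set i0 : ℕ := ⌊10 * P * (x - 6 / 10)⌋₊ with hi0
    have hz0 : 0 ≤ 10 * P * (x - 6 / 10) := by
      apply mul_nonneg (by positivity); linarith [hx.1]
    have hfl1 : (i0 : ℝ) ≤ 10 * P * (x - 6 / 10) := Nat.floor_le hz0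
    have hfl2 : 10 * P * (x - 6 / 10) < i0 + 1 := Nat.lt_floor_add_one _
    have hi0P : i0 < 2 * Q := by
      rw [← hP]
      have h2 : (i0 : ℝ) < P := by
        refine hfl1.trans_lt ?_
        have : x - 6 / 10 < 1 / 10 := by linarith [hx.2]
        nlinarith
      exact_mod_cast h2
    have h2 : ∀ i ∈ Finset.range P, 1 / (2 * L) * (1 / (|(i : ℝ) - i0| + 1)) - ρ
        ≤ bF (Fs i) x := by
      intro i hi
      have hi' := Finset.mem_range.mp hi
      have h3 := (hFs i hi').2 x hxI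
      rw [abs_le] at h3
      have hθ0 : 0 ≤ 2 / 9 * |x - piv i| := by positivity
      have h4 := (g_bounds hθ0 (theta_bound hxI (hpivmem i hi')) K).1
      have h5 : |x - piv i| ≤ (|(i : ℝ) - i0| + 1) / (10 * P) := by
        rw [le_div_iff₀ (by positivity), ← abs_of_pos (by positivity : (0 : ℝ) < 10 * P),
          ← abs_mul]
        have e : (x - piv i) * (10 * P)
            = (10 * P * (x - 6 / 10) - i0) - ((i : ℝ) - i0) := by
          simp only [hpiv]; field_simp; ring
        rw [e]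
        calc |(10 * P * (x - 6 / 10) - i0) - ((i : ℝ) - i0)|
            ≤ |10 * P * (x - 6 / 10) - i0| + |(i : ℝ) - i0| := abs_sub _ _
          _ ≤ 1 + |(i : ℝ) - i0| := by
              gcongr
              rw [abs_of_nonneg (by linarith)]
              linarith
          _ = |(i : ℝ) - i0| + 1 := by ring
      have h6 : 1 / (2 * L) * (1 / (|(i : ℝ) - i0| + 1))
          ≤ 1 / (1 + 3 / 2 * K * (2 / 9 * |x - piv i|)) := by
        set m := |(i : ℝ) - i0| + 1 with hm
        have hm1 : 1 ≤ m := by rw [hm]; linarith [abs_nonneg ((i : ℝ) - i0)]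
        have h7 : 3 / 2 * (K : ℝ) * (2 / 9 * |x - piv i|) ≤ L * m := by
          calc 3 / 2 * (K : ℝ) * (2 / 9 * |x - piv i|)
              ≤ 3 / 2 * (K : ℝ) * (2 / 9 * (m / (10 * P))) := by gcongr
            _ = L * m := by rw [hKeq]; field_simp; ring
        have h8 : 1 / (2 * (L : ℝ)) * (1 / m) = 1 / (2 * L * m) := by
          rw [one_div_mul_one_div]
        rw [h8]
        apply one_div_le_one_div_of_le (by positivity)
        nlinarith
      linarith [h3.1]
    have h3 : 1 / (2 * L) * ∑ i ∈ Finset.range P, 1 / (|(i : ℝ) - i0| + 1) - P * ρ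
        ≤ ∑ i ∈ Finset.range P, bF (Fs i) x := by
      have := Finset.sum_le_sum h2
      rw [Finset.sum_sub_distrib, ← Finset.mul_sum] at this
      simpa using this
    have h4 := harmonic_lower Q i0 hi0P
    rw [← hP] at h4
    have h5 : T ≤ ∑ i ∈ Finset.range P, bF (Fs i) x := by
      have h6 : 1 / (2 * (L : ℝ)) * (2 * L * (T + 1))
          ≤ 1 / (2 * L) * ∑ i ∈ Finset.range P, 1 / (|(i : ℝ) - i0| + 1) := by
        apply mul_le_mul_of_nonneg_left (hQ1.trans h4) (by positivity)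
      have h7 : 1 / (2 * (L : ℝ)) * (2 * L * (T + 1)) = T + 1 := by field_simp
      have h8 := min_le_right (ε / 4) 1
      rw [← hsumρ] at h8
      linarith
    have h6 : Real.exp (-∑ i ∈ Finset.range P, bF (Fs i) x) ≤ ε / 2 := by
      calc Real.exp (-∑ i ∈ Finset.range P, bF (Fs i) x) ≤ Real.exp (-T) :=
            Real.exp_le_exp.mpr (by linarith)
        _ = ε / 2 := by
            rw [hT, ← Real.log_inv, Real.exp_log (by positivity)]
            field_simp
    linarith

end Pool.Agent.X104.Seg
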