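import Mathlib
import Pool.Agent.X104.Seg.Profile

set_option autoImplicit false

open Set MeasureTheory

namespace Pool.Agent.X104.Seg

/-- the body abscissae -/
abbrev Body : Set ℝ := Icc (-1 / 2 : ℝ) (1 / 2)
/-- the reach abscissae -/
abbrev Reach : Set ℝ := Ico (6 / 10 : ℝ) (7 / 10)

lemma sl_cons (t : Tube) (F : List Tube) (x : ℝ) :
    sl (t :: F) x = Ico (t.a + t.b * x) (t.a + t.b * x + t.w) ∪ sl F x := by
  simp only [sl, List.map_cons, U_cons]

lemma sl_nil (x : ℝ) : sl [] x = ∅ := by simp [sl, U_nil]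

/-- all slopes of a finite valid list lie in one `D n` -/
lemma exists_common (F : List Tube) (hF : Valid F) : ∃ n, ∀ t ∈ F, t.b ∈ D n := by
  induction F with
  | nil => exact ⟨0, by simp⟩
  | cons t F ih =>
    obtain ⟨n1, h1⟩ := ih (fun u hu => hF u (List.mem_cons_of_mem _ hu))
    obtain ⟨⟨n2, h2⟩, -, -⟩ := hF t List.mem_cons_self
    refine ⟨max n1 n2, fun u hu => ?_⟩
    rcases List.mem_cons.mp hu with rfl | hu
    · exact D_mono (le_max_right _ _) h2
    · exact D_mono (le_max_left _ _) (h1 u hu)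

/-- `b` is a child of the tube `t` (of level `N`), its slope being of level `n1`. -/
def Child (N n1 : ℕ) (t b : Tube) : Prop :=
  t.b ≤ b.b ∧ b.b + (1 / 3 : ℝ) ^ n1 ≤ t.b + (1 / 3 : ℝ) ^ N ∧ t.a ≤ b.a ∧ b.a + b.w ≤ t.a + t.w

lemma single_refine {N : ℕ} {t : Tube} (hb : t.b ∈ D N) (hw : ∃ m : ℕ, t.w = (1 / 3 : ℝ) ^ m)
    {ε : ℝ} (hε : 0 < ε) :
    ∃ n1 B, (∀ b ∈ B, b.b ∈ D n1 ∧ (∃ m : ℕ, b.w = (1 / 3 : ℝ) ^ m) ∧ b.w ≤ ε ∧
        Child N n1 t b) ∧
      (∀ x ∈ Body, volume.real (sl B x) ≤ ε) ∧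
      ∀ x ∈ Reach, volume.real (Ico (t.a + t.b * x) (t.a + t.b * x + t.w) \ sl B x) ≤ ε := by
  obtain ⟨m, hm⟩ := hw
  obtain ⟨G, hG, hG1, hG2⟩ := main_config (ε := ε / 2) (by positivity)
  obtain ⟨n, hn⟩ := exists_common G hG
  obtain ⟨r, hr1, hr2⟩ := exists_pow_mul_le 1 (ε / 2) (by positivity) (max N m)
  rw [one_mul] at hr2
  have hrN : N ≤ r := (le_max_left _ _).trans hr1
  have hrm : m ≤ r := (le_max_right _ _).trans hr1
  have hw0 : 0 < t.w := by rw [hm]; positivity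
  have hw1 : t.w ≤ 1 := by rw [hm]; exact pow_le_one₀ (by norm_num) (by norm_num)
  have hwr : t.w * (1 / 3 : ℝ) ^ (r - m) = (1 / 3) ^ r := by
    rw [hm, ← pow_add]; congr 1; omega
  have hst := hG.stack (r - m)
  refine ⟨r + n, (stack (r - m) G).map (Tube.map t.w t.b t.a), ?_, ?_, ?_⟩
  · intro b hb'
    obtain ⟨c, hc, rfl⟩ := List.mem_map.mp hb'
    obtain ⟨-, ⟨m', hm'⟩, hcx⟩ := hst c hc
    have hcx0 := hcx 0 (by constructor <;> norm_num)
    simp only [mul_zero, add_zero] at hcx0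
    -- slope of `c`
    have hc' := hc
    simp only [Seg.stack, List.mem_flatMap, List.mem_range, List.mem_map] at hc'
    obtain ⟨j, -, u, hu, huc⟩ := hc'
    have hcb : c.b = (1 / 3 : ℝ) ^ (r - m) * u.b := by rw [← huc]; simp [Tube.map]
    have hub := hn u hu
    have hslope : (Tube.map t.w t.b t.a c).b = t.b + (1 / 3 : ℝ) ^ r * u.b := by
      simp only [Tube.map, hcb]
      rw [← mul_assoc, hwr]
    have hcw : c.w = (1 / 3 : ℝ) ^ (r - m) * u.w := by rw [← huc]; simp [Tube.map]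
    obtain ⟨-, ⟨m'', hm''⟩, -⟩ := hG u hu
    have huw1 : u.w ≤ 1 := by rw [hm'']; exact pow_le_one₀ (by norm_num) (by norm_num)
    have hwidth : (Tube.map t.w t.b t.a c).w = (1 / 3 : ℝ) ^ r * u.w := by
      simp only [Tube.map, hcw]
      rw [← mul_assoc, hwr]
    have hr0 : (0 : ℝ) < (1 / 3) ^ r := by positivity
    refine ⟨?_, ⟨r + m'', ?_⟩, ?_, ?_, ?_, ?_, ?_⟩
    · rw [hslope]
      exact D_add (D_mono hrN hb) hub
    · rw [hwidth, hm'', pow_add]
    · rw [hwidth]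
      calc (1 / 3 : ℝ) ^ r * u.w ≤ (1 / 3 : ℝ) ^ r * 1 := by gcongr
        _ ≤ ε := by linarith
    · rw [hslope]
      have := D_nonneg hub
      have : 0 ≤ (1 / 3 : ℝ) ^ r * u.b := by positivity
      linarith
    · rw [hslope, pow_add]
      have h1 := D_le hub
      have h2 : (1 / 3 : ℝ) ^ r ≤ (1 / 3) ^ N :=
        pow_le_pow_of_le_one (by norm_num) (by norm_num) hrN
      have h3 : (1 / 3 : ℝ) ^ r * (u.b + (1 / 3) ^ n) ≤ (1 / 3 : ℝ) ^ r * 1 := by gcongr
      linarith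
    · simp only [Tube.map]
      have : 0 ≤ t.w * c.a := mul_nonneg hw0.le hcx0.1
      linarith
    · simp only [Tube.map]
      have : t.w * (c.a + c.w) ≤ t.w * 1 := by gcongr; exact hcx0.2
      linarith
  · intro x hx
    have hxI : x ∈ Icc (-1 / 2 : ℝ) (7 / 10) := ⟨hx.1, hx.2.trans (by norm_num)⟩
    have hs := sl_subset hG hxI
    have h1 := equi_interval (measurableSet_sl G x) hs
      (by positivity : (0 : ℝ) < t.w * (1 / 3) ^ (r - m)) (t.a + t.b * x) (t.a + t.b * x)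
      (t.a + t.b * x + t.w)
    rw [← sl_map_stack hw0 hs, hwr, max_eq_right (by linarith)] at h1
    rw [abs_le] at h1
    have h2 : volume.real (sl G x) ≤ ε / 2 := hG1 x hx
    have h3 : volume.real (sl G x) * (t.a + t.b * x + t.w - (t.a + t.b * x)) ≤ ε / 2 := by
      have h4 : (0 : ℝ) ≤ volume.real (sl G x) := measureReal_nonneg
      nlinarith
    linarith [h1.2]
  · intro x hx
    have hxI : x ∈ Icc (-1 / 2 : ℝ) (7 / 10) := ⟨by linarith [hx.1], hx.2.le⟩
    have hs := sl_subset hG hxI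
    have h1 := equi_interval (measurableSet_sl G x) hs
      (by positivity : (0 : ℝ) < t.w * (1 / 3) ^ (r - m)) (t.a + t.b * x) (t.a + t.b * x)
      (t.a + t.b * x + t.w)
    have hsub : sl ((stack (r - m) G).map (Tube.map t.w t.b t.a)) x
        ⊆ Ico (t.a + t.b * x) (t.a + t.b * x + t.w) := by
      rw [sl_map_stack hw0 hs]; exact inter_subset_left
    rw [← sl_map_stack hw0 hs, hwr, max_eq_right (by linarith)] at h1
    rw [abs_le] at h1
    have h2 : 1 - ε / 2 ≤ volume.real (sl G x) := hG2 x hx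
    have h3 : volume.real (Ico (t.a + t.b * x) (t.a + t.b * x + t.w) \
        sl ((stack (r - m) G).map (Tube.map t.w t.b t.a)) x)
        = t.w - volume.real (sl ((stack (r - m) G).map (Tube.map t.w t.b t.a)) x) := by
      rw [measureReal_sdiff hsub (measurableSet_sl _ _) (by simp)]
      congr 1
      simp [Measure.real, Real.volume_Ico, hw0.le]
    rw [h3]
    have h5 : (t.a + t.b * x + t.w - (t.a + t.b * x)) = t.w := by ring
    rw [h5] at h1
    have h6 : (1 - ε / 2) * t.w ≤ volume.real (sl G x) * t.w :=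
      mul_le_mul_of_nonneg_right h2 hw0.le
    nlinarith [h1.1]

lemma base_refine {N : ℕ} (F : List Tube)
    (hF : ∀ t ∈ F, t.b ∈ D N ∧ ∃ m : ℕ, t.w = (1 / 3 : ℝ) ^ m) :
    ∀ {ε : ℝ}, 0 < ε →
    ∃ n1 B, (∀ b ∈ B, b.b ∈ D n1 ∧ (∃ m : ℕ, b.w = (1 / 3 : ℝ) ^ m) ∧ b.w ≤ ε ∧
        ∃ t ∈ F, Child N n1 t b) ∧
      (∀ x ∈ Body, volume.real (sl B x) ≤ ε) ∧
      ∀ x ∈ Reach, volume.real (sl F x \ sl B x) ≤ ε := by
  induction F with
  | nil =>
    intro ε hε
    refine ⟨0, [], by simp, fun x _ => ?_, fun x _ => ?_⟩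
    · simp [sl_nil, hε.le]
    · simp [sl_nil, hε.le]
  | cons t F ih =>
    intro ε hε
    obtain ⟨n1, B1, h1, h2, h3⟩ := ih (fun u hu => hF u (List.mem_cons_of_mem _ hu))
      (ε := ε / 2) (by positivity)
    obtain ⟨n2, B2, k1, k2, k3⟩ := single_refine (hF t List.mem_cons_self).1
      (hF t List.mem_cons_self).2 (ε := ε / 2) (by positivity)
    have hmono : ∀ {u b : Tube} {n n' : ℕ}, n ≤ n' → Child N n u b → Child N n' u b := by
      intro u b n n' hnn h
      refine ⟨h.1, ?_, h.2.2.1, h.2.2.2⟩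
      have := pow_le_pow_of_le_one (by norm_num : (0 : ℝ) ≤ 1 / 3) (by norm_num) hnn
      linarith [h.2.1]
    refine ⟨max n1 n2, B2 ++ B1, ?_, ?_, ?_⟩
    · intro b hb
      rcases List.mem_append.mp hb with hb | hb
      · obtain ⟨e1, e2, e3, e4⟩ := k1 b hb
        exact ⟨D_mono (le_max_right _ _) e1, e2, by linarith,
          ⟨t, List.mem_cons_self, hmono (le_max_right _ _) e4⟩⟩
      · obtain ⟨e1, e2, e3, u, hu, e4⟩ := h1 b hb
        exact ⟨D_mono (le_max_left _ _) e1, e2, by linarith,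
          ⟨u, List.mem_cons_of_mem _ hu, hmono (le_max_left _ _) e4⟩⟩
    · intro x hx
      rw [sl_append]
      have := measureReal_union_le (μ := volume) (sl B2 x) (sl B1 x)
      linarith [h2 x hx, k2 x hx]
    · intro x hx
      rw [sl_append, sl_cons]
      have hsub : (Ico (t.a + t.b * x) (t.a + t.b * x + t.w) ∪ sl F x) \ (sl B2 x ∪ sl B1 x)
          ⊆ (Ico (t.a + t.b * x) (t.a + t.b * x + t.w) \ sl B2 x) ∪ (sl F x \ sl B1 x) := by
        rintro y ⟨hy1 | hy1, hy2⟩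
        · exact Or.inl ⟨hy1, fun h => hy2 (Or.inl h)⟩
        · exact Or.inr ⟨hy1, fun h => hy2 (Or.inr h)⟩
      have hfin : volume ((Ico (t.a + t.b * x) (t.a + t.b * x + t.w) \ sl B2 x) ∪
          (sl F x \ sl B1 x)) ≠ ⊤ := by
        apply (measure_union_lt_top _ _).ne
        · exact lt_of_le_of_lt (measure_mono sdiff_subset) (by simp)
        · exact lt_of_le_of_lt (measure_mono sdiff_subset) (vol_sl_ne_top _ _).lt_top
      have h4 := measureReal_mono hsub hfin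
      have h5 := measureReal_union_le (μ := volume)
        (Ico (t.a + t.b * x) (t.a + t.b * x + t.w) \ sl B2 x) (sl F x \ sl B1 x)
      linarith [h3 x hx, k3 x hx]

end Pool.Agent.X104.Seg
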