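import Mathlib
import Pool.Agent.X104.Seg.Refine

set_option autoImplicit false

open Set MeasureTheory

namespace Pool.Agent.X104.Seg

/-- make the slopes distinct by tiny perturbations -/
noncomputable def pert (c : ℝ) : ℕ → List Tube → List Tube
  | _, [] => []
  | i, b :: B => ⟨b.b + c * (1 - (1 / 3 : ℝ) ^ i), b.a, b.w⟩ :: pert c (i + 1) B

lemma mem_pert {c : ℝ} : ∀ (B : List Tube) (i : ℕ) (t : Tube), t ∈ pert c i B →
    ∃ b ∈ B, ∃ j, i ≤ j ∧ j < i + B.length ∧
      t = ⟨b.b + c * (1 - (1 / 3 : ℝ) ^ j), b.a, b.w⟩ := by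
  intro B
  induction B with
  | nil => intro i t ht; simp [pert] at ht
  | cons b B ih =>
    intro i t ht
    simp only [pert, List.mem_cons] at ht
    rcases ht with rfl | ht
    · exact ⟨b, List.mem_cons_self, i, le_rfl, by simp, rfl⟩
    · obtain ⟨b', hb', j, h1, h2, h3⟩ := ih (i + 1) t ht
      exact ⟨b', List.mem_cons_of_mem _ hb', j, by omega, by simp; omega, h3⟩

lemma pert_pairwise {n1 : ℕ} {c : ℝ} (hc0 : 0 < c) (hc1 : c ≤ (1 / 3 : ℝ) ^ n1) :
    ∀ (B : List Tube) (i : ℕ), (∀ b ∈ B, b.b ∈ D n1) →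
      (pert c i B).Pairwise (fun s t => s.b ≠ t.b) := by
  intro B
  induction B with
  | nil => intro i _; simp [pert]
  | cons b B ih =>
    intro i hB
    simp only [pert, List.pairwise_cons]
    refine ⟨?_, ih (i + 1) fun u hu => hB u (List.mem_cons_of_mem _ hu)⟩
    intro t ht
    obtain ⟨b', hb', j, h1, -, rfl⟩ := mem_pert B (i + 1) t ht
    simp only
    have hij : (1 / 3 : ℝ) ^ j < (1 / 3) ^ i :=
      pow_lt_pow_right_of_lt_one₀ (by norm_num) (by norm_num) (by omega)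
    have hi1 : (1 / 3 : ℝ) ^ i ≤ 1 := pow_le_one₀ (by norm_num) (by norm_num)
    have hj0 : (0 : ℝ) < (1 / 3) ^ j := by positivity
    have hn0 : (0 : ℝ) < (1 / 3) ^ n1 := by positivity
    by_cases hbb : b.b = b'.b
    · rw [hbb]
      intro h
      have : c * (1 - (1 / 3 : ℝ) ^ i) = c * (1 - (1 / 3 : ℝ) ^ j) := by linarith
      have := mul_left_cancel₀ hc0.ne' this
      linarith
    · have hsep := D_sep (hB b List.mem_cons_self) (hB b' (List.mem_cons_of_mem _ hb')) hbb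
      intro h
      have h2 : b.b - b'.b = c * ((1 / 3 : ℝ) ^ i - (1 / 3 : ℝ) ^ j) := by linarith
      rw [h2, abs_of_nonneg (by apply mul_nonneg hc0.le; linarith)] at hsep
      have h3 : c * ((1 / 3 : ℝ) ^ i - (1 / 3 : ℝ) ^ j) ≤ (1 / 3 : ℝ) ^ n1 * 1 := by
        gcongr; linarith
      linarith

lemma vol_diff_pert {c x : ℝ} (hc0 : 0 ≤ c) (hx : |x| ≤ 1) :
    ∀ (B : List Tube) (i : ℕ),
      volume (sl B x \ sl (pert c i B) x) ≤ ENNReal.ofReal (c * B.length) := by
  intro B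
  induction B with
  | nil => intro i; simp [sl_nil]
  | cons b B ih =>
    intro i
    simp only [pert, sl_cons]
    set τ : ℝ := c * (1 - (1 / 3 : ℝ) ^ i) with hτ
    have hτ0 : 0 ≤ τ := by
      have : (1 / 3 : ℝ) ^ i ≤ 1 := pow_le_one₀ (by norm_num) (by norm_num)
      rw [hτ]; apply mul_nonneg hc0; linarith
    have hτ1 : τ ≤ c := by
      have : (0 : ℝ) ≤ (1 / 3 : ℝ) ^ i := by positivity
      rw [hτ]; nlinarith
    have hsub : (Ico (b.a + b.b * x) (b.a + b.b * x + b.w) ∪ sl B x) \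
        (Ico (b.a + (b.b + τ) * x) (b.a + (b.b + τ) * x + b.w) ∪ sl (pert c (i + 1) B) x)
        ⊆ (Ico (b.a + b.b * x) (b.a + b.b * x + b.w) \
          Ico (b.a + (b.b + τ) * x) (b.a + (b.b + τ) * x + b.w)) ∪
          (sl B x \ sl (pert c (i + 1) B) x) := by
      rintro y ⟨hy1 | hy1, hy2⟩
      · exact Or.inl ⟨hy1, fun h => hy2 (Or.inl h)⟩
      · exact Or.inr ⟨hy1, fun h => hy2 (Or.inr h)⟩
    have h1 : volume (Ico (b.a + b.b * x) (b.a + b.b * x + b.w) \
          Ico (b.a + (b.b + τ) * x) (b.a + (b.b + τ) * x + b.w)) ≤ ENNReal.ofReal c := by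
      have hτx : |τ * x| ≤ c := by
        rw [abs_mul, abs_of_nonneg hτ0]
        calc τ * |x| ≤ c * 1 := by gcongr
          _ = c := by ring
      rcases le_total 0 (τ * x) with h | h
      · have hs : (Ico (b.a + b.b * x) (b.a + b.b * x + b.w) \
          Ico (b.a + (b.b + τ) * x) (b.a + (b.b + τ) * x + b.w))
          ⊆ Ico (b.a + b.b * x) (b.a + b.b * x + τ * x) := by
          rintro y ⟨hy1, hy2⟩
          refine ⟨hy1.1, ?_⟩
          by_contra hcon
          push Not at hcon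
          exact hy2 ⟨by linarith, by linarith [hy1.2]⟩
        refine (measure_mono hs).trans ?_
        rw [Real.volume_Ico]
        apply ENNReal.ofReal_le_ofReal
        linarith [le_abs_self (τ * x)]
      · have hs : (Ico (b.a + b.b * x) (b.a + b.b * x + b.w) \
          Ico (b.a + (b.b + τ) * x) (b.a + (b.b + τ) * x + b.w))
          ⊆ Ico (b.a + b.b * x + b.w + τ * x) (b.a + b.b * x + b.w) := by
          rintro y ⟨hy1, hy2⟩
          refine ⟨?_, hy1.2⟩
          by_contra hcon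
          push Not at hcon
          exact hy2 ⟨by linarith [hy1.1], by linarith⟩
        refine (measure_mono hs).trans ?_
        rw [Real.volume_Ico]
        apply ENNReal.ofReal_le_ofReal
        linarith [neg_abs_le (τ * x)]
    refine (measure_mono hsub).trans ((measure_union_le _ _).trans ?_)
    refine (add_le_add h1 (ih (i + 1))).trans ?_
    rw [← ENNReal.ofReal_add hc0 (by positivity)]
    apply ENNReal.ofReal_le_ofReal
    simp only [List.length_cons]
    push_cast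
    linarith

/-- enlarged slices -/
def enl (B : List Tube) (c x : ℝ) : Set ℝ :=
  {y | ∃ b ∈ B, b.a + b.b * x - c ≤ y ∧ y ≤ b.a + b.b * x + b.w + c}

lemma vol_enl {c x : ℝ} (hc0 : 0 ≤ c) : ∀ B : List Tube,
    volume (enl B c x \ sl B x) ≤ ENNReal.ofReal (2 * c * B.length) := by
  intro B
  induction B with
  | nil => simp [enl]
  | cons b B ih =>
    have hsub : enl (b :: B) c x \ sl (b :: B) x
        ⊆ (Icc (b.a + b.b * x - c) (b.a + b.b * x) ∪
            Icc (b.a + b.b * x + b.w) (b.a + b.b * x + b.w + c)) ∪ (enl B c x \ sl B x) := by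
      rintro y ⟨⟨b', hb', hy⟩, hy2⟩
      rw [sl_cons] at hy2
      rcases List.mem_cons.mp hb' with rfl | hb'
      · left
        by_cases h1 : y ≤ b'.a + b'.b * x
        · exact Or.inl ⟨hy.1, h1⟩
        · right
          push Not at h1
          refine ⟨?_, hy.2⟩
          by_contra hcon
          push Not at hcon
          exact hy2 (Or.inl ⟨h1.le, hcon⟩)
      · exact Or.inr ⟨⟨b', hb', hy⟩, fun h => hy2 (Or.inr h)⟩
    refine (measure_mono hsub).trans ((measure_union_le _ _).trans ?_)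
    refine (add_le_add (measure_union_le _ _) ih).trans ?_
    rw [Real.volume_Icc, Real.volume_Icc, ← ENNReal.ofReal_add (by linarith) (by linarith),
      ← ENNReal.ofReal_add (by linarith) (by positivity)]
    apply ENNReal.ofReal_le_ofReal
    simp only [List.length_cons]
    push_cast
    linarith

/-- The compact set of line parameters (slope, intercept) attached to a stage. -/
def Lam (N : ℕ) (F : List Tube) : Set (ℝ × ℝ) :=
  {p | ∃ t ∈ F, (p.1 ∈ cantorSet ∧ t.b ≤ p.1 ∧ p.1 ≤ t.b + (1 / 3 : ℝ) ^ N) ∧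
    (t.a ≤ p.2 ∧ p.2 ≤ t.a + t.w)}

lemma isCompact_Lam (N : ℕ) (F : List Tube) : IsCompact (Lam N F) := by
  induction F with
  | nil =>
    have : Lam N [] = ∅ := by ext p; simp [Lam]
    rw [this]; exact isCompact_empty
  | cons t F ih =>
    have : Lam N (t :: F) = ((cantorSet ∩ Icc t.b (t.b + (1 / 3 : ℝ) ^ N)) ×ˢ
        Icc t.a (t.a + t.w)) ∪ Lam N F := by
      ext p
      simp only [Lam, List.mem_cons, mem_ofPred_eq, mem_union, mem_prod, mem_inter_iff, mem_Icc]
      constructor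
      · rintro ⟨u, rfl | hu, h⟩
        · exact Or.inl h
        · exact Or.inr ⟨u, hu, h⟩
      · rintro (h | ⟨u, hu, h⟩)
        · exact ⟨t, Or.inl rfl, h⟩
        · exact ⟨u, Or.inr hu, h⟩
    rw [this]
    exact ((isCompact_cantorSet.inter isCompact_Icc).prod isCompact_Icc).union ih

/-- slice of a family of lines -/
def Ax (Λ : Set (ℝ × ℝ)) (x : ℝ) : Set ℝ := {y | ∃ p ∈ Λ, p.2 + p.1 * x = y}

lemma Ax_mono {Λ Λ' : Set (ℝ × ℝ)} (h : Λ ⊆ Λ') (x : ℝ) : Ax Λ x ⊆ Ax Λ' x := by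
  rintro y ⟨p, hp, rfl⟩
  exact ⟨p, h hp, rfl⟩

def IsStage (N : ℕ) (F : List Tube) : Prop :=
  (∀ t ∈ F, t.b ∈ D N ∧ ∃ m : ℕ, t.w = (1 / 3 : ℝ) ^ m) ∧
    F.Pairwise (fun s t => s.b ≠ t.b)

lemma stage_refine {N : ℕ} {F : List Tube} (h : IsStage N F) {ε : ℝ} (hε : 0 < ε) :
    ∃ N' F', IsStage N' F' ∧ Lam N' F' ⊆ Lam N F ∧ (∀ t ∈ F', t.w ≤ ε) ∧
      (∀ x ∈ Body, volume (Ax (Lam N' F') x) ≤ ENNReal.ofReal ε) ∧
      ∀ x ∈ Reach, volume (sl F x \ sl F' x) ≤ ENNReal.ofReal ε := by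
  obtain ⟨n1, B, hB1, hB2, hB3⟩ := base_refine F h.1 (ε := ε / 2) (by positivity)
  obtain ⟨q, -, hq⟩ := exists_pow_mul_le (2 * B.length) (ε / 2) (by positivity) 0
  set c : ℝ := (1 / 3 : ℝ) ^ (n1 + q) with hc
  have hc0 : 0 < c := by positivity
  have hcn : c ≤ (1 / 3 : ℝ) ^ n1 :=
    pow_le_pow_of_le_one (by norm_num) (by norm_num) (Nat.le_add_right _ _)
  have hcq : c ≤ (1 / 3 : ℝ) ^ q :=
    pow_le_pow_of_le_one (by norm_num) (by norm_num) (Nat.le_add_left _ _)
  have hlen : (0 : ℝ) ≤ B.length := by positivity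
  have hsmall : 2 * c * B.length ≤ ε / 2 := by
    calc 2 * c * B.length = 2 * B.length * c := by ring
      _ ≤ 2 * B.length * (1 / 3 : ℝ) ^ q := by gcongr
      _ ≤ ε / 2 := hq
  set M : ℕ := B.length with hM
  have hkey : ∀ t' ∈ pert c 0 B, ∃ b ∈ B, t'.b ∈ D (n1 + (q + M)) ∧ b.b ≤ t'.b ∧
      t'.b + (1 / 3 : ℝ) ^ (n1 + (q + M)) ≤ b.b + c ∧ t'.a = b.a ∧ t'.w = b.w := by
    intro t' ht'
    obtain ⟨b, hb, j, -, hj, rfl⟩ := mem_pert B 0 t' ht'
    rw [zero_add] at hj
    refine ⟨b, hb, ?_, ?_, ?_, rfl, rfl⟩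
    · have h1 := D_add (hB1 b hb).1 (D_scale q (one_sub_mem_D' hj.le))
      simp only
      have h2 : c * (1 - (1 / 3 : ℝ) ^ j)
          = (1 / 3 : ℝ) ^ n1 * ((1 / 3 : ℝ) ^ q * (1 - (1 / 3) ^ j)) := by
        rw [hc, pow_add]; ring
      rw [h2]
      exact h1
    · have : (1 / 3 : ℝ) ^ j ≤ 1 := pow_le_one₀ (by norm_num) (by norm_num)
      simp only
      nlinarith
    · have h1 := D_le (one_sub_mem_D' (M := M) hj.le)
      have h2 : (1 / 3 : ℝ) ^ (n1 + (q + M)) = c * (1 / 3) ^ M := by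
        rw [hc, ← pow_add]; congr 1; omega
      rw [h2]
      simp only
      have h3 : c * (1 - (1 / 3 : ℝ) ^ j + (1 / 3) ^ M) ≤ c * 1 := by gcongr
      linarith
  refine ⟨n1 + (q + M), pert c 0 B, ⟨fun t' ht' => ?_, ?_⟩, ?_, ?_, ?_, ?_⟩
  · obtain ⟨b, hb, h1, -, -, -, h5⟩ := hkey t' ht'
    exact ⟨h1, by rw [h5]; exact (hB1 b hb).2.1⟩
  · exact pert_pairwise hc0 hcn B 0 fun b hb => (hB1 b hb).1
  · rintro p ⟨t', ht', ⟨hp1, hp2, hp3⟩, hp4, hp5⟩
    obtain ⟨b, hb, -, h2, h3, h4, h5⟩ := hkey t' ht'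
    obtain ⟨-, -, -, t, ht, k1, k2, k3, k4⟩ := hB1 b hb
    refine ⟨t, ht, ⟨hp1, by linarith, by linarith⟩, ?_, ?_⟩
    · rw [h4] at hp4; linarith
    · rw [h4, h5] at hp5; linarith
  · intro t' ht'
    obtain ⟨b, hb, -, -, -, -, h5⟩ := hkey t' ht'
    rw [h5]
    linarith [(hB1 b hb).2.2.1]
  · intro x hx
    have hx1 : |x| ≤ 1 := by rw [abs_le]; constructor <;> linarith [hx.1, hx.2]
    have hsub : Ax (Lam (n1 + (q + M)) (pert c 0 B)) x ⊆ enl B c x := by
      rintro y ⟨p, ⟨t', ht', ⟨hp1, hp2, hp3⟩, hp4, hp5⟩, rfl⟩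
      obtain ⟨b, hb, -, h2, h3, h4, h5⟩ := hkey t' ht'
      rw [h4] at hp4
      rw [h4, h5] at hp5
      refine ⟨b, hb, ?_, ?_⟩
      · have h6 : -c ≤ (p.1 - b.b) * x := by
          have h7 : 0 ≤ p.1 - b.b := by linarith
          have h8 : p.1 - b.b ≤ c := by linarith
          have h9 : -1 ≤ x := (abs_le.mp hx1).1
          nlinarith
        nlinarith
      · have h6 : (p.1 - b.b) * x ≤ c := by
          have h7 : 0 ≤ p.1 - b.b := by linarith
          have h8 : p.1 - b.b ≤ c := by linarith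
          have h9 : x ≤ 1 := (abs_le.mp hx1).2
          nlinarith
        nlinarith
    have h1 : enl B c x ⊆ sl B x ∪ (enl B c x \ sl B x) := by
      intro y hy
      by_cases h : y ∈ sl B x
      · exact Or.inl h
      · exact Or.inr ⟨hy, h⟩
    refine (measure_mono (hsub.trans h1)).trans ((measure_union_le _ _).trans ?_)
    have h2 : volume (sl B x) ≤ ENNReal.ofReal (ε / 2) := by
      rw [← ENNReal.ofReal_toReal (vol_sl_ne_top B x)]
      exact ENNReal.ofReal_le_ofReal (hB2 x hx)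
    have h3 := (vol_enl (x := x) hc0.le B).trans (ENNReal.ofReal_le_ofReal hsmall)
    refine (add_le_add h2 h3).trans ?_
    rw [← ENNReal.ofReal_add (by positivity) (by positivity)]
    apply ENNReal.ofReal_le_ofReal
    linarith
  · intro x hx
    have hx1 : |x| ≤ 1 := by rw [abs_le]; constructor <;> linarith [hx.1, hx.2]
    have h1 : sl F x \ sl (pert c 0 B) x ⊆ (sl F x \ sl B x) ∪ (sl B x \ sl (pert c 0 B) x) := by
      rintro y ⟨hy1, hy2⟩
      by_cases h : y ∈ sl B x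
      · exact Or.inr ⟨h, hy2⟩
      · exact Or.inl ⟨hy1, h⟩
    refine (measure_mono h1).trans ((measure_union_le _ _).trans ?_)
    have h2 : volume (sl F x \ sl B x) ≤ ENNReal.ofReal (ε / 2) := by
      have hfin : volume (sl F x \ sl B x) ≠ ⊤ :=
        ne_top_of_le_ne_top (vol_sl_ne_top F x) (measure_mono sdiff_subset)
      rw [← ENNReal.ofReal_toReal hfin]
      exact ENNReal.ofReal_le_ofReal (hB3 x hx)
    have h3 : volume (sl B x \ sl (pert c 0 B) x) ≤ ENNReal.ofReal (ε / 2) := by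
      refine (vol_diff_pert hc0.le hx1 B 0).trans (ENNReal.ofReal_le_ofReal ?_)
      have : 0 ≤ c * B.length := by positivity
      rw [← hM] at this ⊢
      linarith
    refine (add_le_add h2 h3).trans ?_
    rw [← ENNReal.ofReal_add (by positivity) (by positivity)]
    apply ENNReal.ofReal_le_ofReal
    linarith

end Pool.Agent.X104.Seg
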