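import Mathlib
import Pool.Agent.X104.Seg.Stage

set_option autoImplicit false

open Set MeasureTheory Filter Topology

namespace Pool.Agent.X104.Seg

lemma isCompact_Ax {Λ : Set (ℝ × ℝ)} (h : IsCompact Λ) (x : ℝ) : IsCompact (Ax Λ x) := by
  have : Ax Λ x = (fun p : ℝ × ℝ => p.2 + p.1 * x) '' Λ := by
    ext y; simp [Ax]
  rw [this]
  exact h.image (by fun_prop)

lemma sl_subset_Ax {N : ℕ} {F : List Tube} (h : IsStage N F) (x : ℝ) :
    sl F x ⊆ Ax (Lam N F) x := by
  intro y hy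
  obtain ⟨t, ht, h1, h2⟩ := mem_sl.mp hy
  refine ⟨(t.b, y - t.b * x), ⟨t, ht, ⟨D_sub_cantor (h.1 t ht).1, le_rfl, ?_⟩, ?_, ?_⟩, by simp⟩
  · have : (0 : ℝ) < (1 / 3) ^ N := by positivity
    simp only
    linarith
  · simp only; linarith
  · simp only; linarith

lemma eq_of_slope {F : List Tube} (h : F.Pairwise (fun s t => s.b ≠ t.b)) :
    ∀ s ∈ F, ∀ t ∈ F, s.b = t.b → s = t := by
  induction F with
  | nil => intro s hs; simp at hs
  | cons u F ih =>
    rw [List.pairwise_cons] at h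
    intro s hs t ht hst
    rcases List.mem_cons.mp hs with rfl | hs'
    · rcases List.mem_cons.mp ht with rfl | ht'
      · rfl
      · exact absurd hst (h.1 t ht')
    · rcases List.mem_cons.mp ht with rfl | ht'
      · exact absurd hst.symm (h.1 s hs')
      · exact ih h.2 s hs' t ht' hst

lemma Lam_unique {N : ℕ} {F : List Tube} (h : IsStage N F) {ε : ℝ} (hw : ∀ t ∈ F, t.w ≤ ε)
    {s a a' : ℝ} (h1 : (s, a) ∈ Lam N F) (h2 : (s, a') ∈ Lam N F) : |a - a'| ≤ ε := by
  obtain ⟨t, ht, ⟨-, k1, k2⟩, k3, k4⟩ := h1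
  obtain ⟨t', ht', ⟨-, l1, l2⟩, l3, l4⟩ := h2
  simp only at k1 k2 k3 k4 l1 l2 l3 l4
  have hn0 : (0 : ℝ) < (1 / 3) ^ N := by positivity
  have hb : t.b = t'.b := by
    by_contra hne
    have := D_sep (h.1 t ht).1 (h.1 t' ht').1 hne
    have h3 : |t.b - t'.b| ≤ (1 / 3 : ℝ) ^ N := by
      rw [abs_le]; constructor <;> linarith
    linarith
  have htt := eq_of_slope h.2 t ht t' ht' hb
  subst htt
  have := hw t ht
  rw [abs_le]; constructor <;> linarith

/-- The limit family of lines. -/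
theorem exists_limit : ∃ Λ : Set (ℝ × ℝ), IsCompact Λ ∧ (∀ p ∈ Λ, p.1 ∈ cantorSet) ∧
    (∀ s a a', (s, a) ∈ Λ → (s, a') ∈ Λ → a = a') ∧
    (∀ x ∈ Body, volume (Ax Λ x) = 0) ∧
    ∀ x ∈ Reach, ENNReal.ofReal (1 / 2) ≤ volume (Ax Λ x) := by
  -- the sequence of stages
  have hnext : ∀ (k : ℕ) (S : {p : ℕ × List Tube // IsStage p.1 p.2}),
      ∃ S' : {p : ℕ × List Tube // IsStage p.1 p.2},
        Lam S'.1.1 S'.1.2 ⊆ Lam S.1.1 S.1.2 ∧ (∀ t ∈ S'.1.2, t.w ≤ (1 / 4 : ℝ) ^ (k + 1)) ∧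
        (∀ x ∈ Body, volume (Ax (Lam S'.1.1 S'.1.2) x) ≤ ENNReal.ofReal ((1 / 4 : ℝ) ^ (k + 1))) ∧
        ∀ x ∈ Reach, volume (sl S.1.2 x \ sl S'.1.2 x)
          ≤ ENNReal.ofReal ((1 / 4 : ℝ) ^ (k + 1)) := by
    intro k S
    obtain ⟨N', F', h1, h2, h3, h4, h5⟩ := stage_refine S.2
      (by positivity : (0 : ℝ) < (1 / 4 : ℝ) ^ (k + 1))
    exact ⟨⟨(N', F'), h1⟩, h2, h3, h4, h5⟩
  choose nxt hnxt using hnext
  let S0 : {p : ℕ × List Tube // IsStage p.1 p.2} :=
    ⟨(0, [⟨0, 0, 1⟩]), by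
      refine ⟨fun t ht => ?_, by simp⟩
      simp only [List.mem_singleton] at ht
      subst ht
      exact ⟨by simp [D_zero], 0, by simp⟩⟩
  let S : ℕ → {p : ℕ × List Tube // IsStage p.1 p.2} := fun n =>
    Nat.rec S0 (fun k s => nxt k s) n
  have hS0 : S 0 = S0 := rfl
  have hSs : ∀ k, S (k + 1) = nxt k (S k) := fun k => rfl
  set Λn : ℕ → Set (ℝ × ℝ) := fun n => Lam (S n).1.1 (S n).1.2 with hΛn
  have hanti : Antitone Λn := antitone_nat_of_succ_le fun k => by
    simp only [hΛn, hSs]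
    exact (hnxt k (S k)).1
  have hcomp : ∀ n, IsCompact (Λn n) := fun n => isCompact_Lam _ _
  -- lower bound on the slices
  have hlow : ∀ n, ∀ x ∈ Reach,
      ENNReal.ofReal (2 / 3 + 1 / 3 * (1 / 4 : ℝ) ^ n) ≤ volume (sl (S n).1.2 x) := by
    intro n x hx
    induction n with
    | zero =>
      rw [hS0]
      have : sl S0.1.2 x = Ico 0 1 := by
        ext y; simp [mem_sl, S0]
      rw [this, Real.volume_Ico]
      apply ENNReal.ofReal_le_ofReal
      norm_num
    | succ n ih =>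
      have h1 := (hnxt n (S n)).2.2.2 x hx
      rw [← hSs] at h1
      have h2 : volume (sl (S n).1.2 x) ≤ volume (sl (S (n + 1)).1.2 x)
          + ENNReal.ofReal ((1 / 4 : ℝ) ^ (n + 1)) := by
        have h3 : sl (S n).1.2 x ⊆ sl (S (n + 1)).1.2 x ∪
            (sl (S n).1.2 x \ sl (S (n + 1)).1.2 x) := by
          intro y hy
          by_cases h : y ∈ sl (S (n + 1)).1.2 x
          · exact Or.inl h
          · exact Or.inr ⟨hy, h⟩
        refine (measure_mono h3).trans ((measure_union_le _ _).trans ?_)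
        gcongr
      have h4 := ih.trans h2
      have h5 : (2 / 3 + 1 / 3 * (1 / 4 : ℝ) ^ (n + 1))
          = (2 / 3 + 1 / 3 * (1 / 4 : ℝ) ^ n) - (1 / 4 : ℝ) ^ (n + 1) := by
        rw [pow_succ]; ring
      rw [h5, ENNReal.ofReal_sub _ (by positivity)]
      exact tsub_le_iff_right.mpr h4
  set Λ : Set (ℝ × ℝ) := ⋂ n, Λn n with hΛ
  have hΛcomp : IsCompact Λ :=
    (hcomp 0).of_isClosed_subset (isClosed_iInter fun n => (hcomp n).isClosed)
      (iInter_subset _ 0)
  have hAx : ∀ x, Ax Λ x = ⋂ n, Ax (Λn n) x := by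
    intro x
    apply Subset.antisymm
    · exact subset_iInter fun n => Ax_mono (iInter_subset _ n) x
    · intro y hy
      have hne : (⋂ n, (Λn n ∩ {p : ℝ × ℝ | p.2 + p.1 * x = y})).Nonempty := by
        apply IsCompact.nonempty_iInter_of_sequence_nonempty_isCompact_isClosed
        · intro n
          exact inter_subset_inter_left _ (hanti (Nat.le_succ n))
        · intro n
          obtain ⟨p, hp, hpy⟩ := mem_iInter.mp hy n
          exact ⟨p, hp, hpy⟩
        · exact (hcomp 0).inter_right (isClosed_eq (by fun_prop) (by fun_prop))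
        · intro n
          exact (hcomp n).isClosed.inter (isClosed_eq (by fun_prop) (by fun_prop))
      obtain ⟨p, hp⟩ := hne
      rw [mem_iInter] at hp
      exact ⟨p, mem_iInter.mpr fun n => (hp n).1, (hp 0).2⟩
  refine ⟨Λ, hΛcomp, ?_, ?_, ?_, ?_⟩
  · intro p hp
    obtain ⟨t, -, ⟨h1, -, -⟩, -⟩ := mem_iInter.mp hp 0
    exact h1
  · intro s a a' h1 h2
    have h3 : ∀ n : ℕ, |a - a'| ≤ (1 / 4 : ℝ) ^ (n + 1) := by
      intro n
      have k1 := mem_iInter.mp h1 (n + 1)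
      have k2 := mem_iInter.mp h2 (n + 1)
      refine Lam_unique (S (n + 1)).2 ?_ k1 k2
      have := (hnxt n (S n)).2.1
      rwa [← hSs] at this
    have h4 : Tendsto (fun n : ℕ => (1 / 4 : ℝ) ^ (n + 1)) atTop (𝓝 0) :=
      (tendsto_add_atTop_iff_nat 1).mpr
        (tendsto_pow_atTop_nhds_zero_of_lt_one (by norm_num) (by norm_num))
    have h5 : |a - a'| ≤ 0 := ge_of_tendsto' h4 h3
    have h6 := abs_eq_zero.mp (le_antisymm h5 (abs_nonneg _))
    linarith
  · intro x hx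
    have h3 : ∀ n : ℕ, volume (Ax Λ x) ≤ ENNReal.ofReal ((1 / 4 : ℝ) ^ (n + 1)) := by
      intro n
      have k := (hnxt n (S n)).2.2.1 x hx
      rw [← hSs] at k
      exact (measure_mono (Ax_mono (iInter_subset _ (n + 1)) x)).trans k
    have h4 : Tendsto (fun n : ℕ => ENNReal.ofReal ((1 / 4 : ℝ) ^ (n + 1))) atTop (𝓝 0) := by
      rw [← ENNReal.ofReal_zero]
      exact ENNReal.tendsto_ofReal ((tendsto_add_atTop_iff_nat 1).mpr
        (tendsto_pow_atTop_nhds_zero_of_lt_one (by norm_num) (by norm_num)))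
    exact le_antisymm (ge_of_tendsto' h4 h3) bot_le
  · intro x hx
    rw [hAx]
    have h1 : Tendsto (fun n => volume (Ax (Λn n) x)) atTop (𝓝 (volume (⋂ n, Ax (Λn n) x))) := by
      apply tendsto_measure_iInter_atTop
      · intro n
        exact (isCompact_Ax (hcomp n) x).measurableSet.nullMeasurableSet
      · intro m n hmn
        exact Ax_mono (hanti hmn) x
      · exact ⟨0, (isCompact_Ax (hcomp 0) x).measure_lt_top.ne⟩
    refine ge_of_tendsto' h1 fun n => ?_
    refine le_trans ?_ (measure_mono (sl_subset_Ax (S n).2 x))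
    refine le_trans ?_ (hlow n x hx)
    apply ENNReal.ofReal_le_ofReal
    have : (0 : ℝ) < (1 / 4) ^ n := by positivity
    linarith

end Pool.Agent.X104.Seg
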